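import Mathlib

/-!
Project DZ (helper282): intersections of a subvariety of a torus with almost all algebraic
subgroups. Definitions and statements of the independent parts.
-/

open MvPolynomial Filter
open scoped ENNReal

namespace Pool.Agent.W282.DZ

/-- The residue classes modulo `J` of the polynomials of degree at most `K`. -/
noncomputable def lev {n : ℕ} (J : Ideal (MvPolynomial (Fin n) ℂ)) (K : ℕ) :
    Submodule ℂ (MvPolynomial (Fin n) ℂ ⧸ J) :=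
  (restrictTotalDegree (Fin n) ℂ K).map (Ideal.Quotient.mkₐ ℂ J).toLinearMap

/-- The Hilbert function. -/
noncomputable def hil {n : ℕ} (J : Ideal (MvPolynomial (Fin n) ℂ)) (K : ℕ) : ℕ :=
  Module.finrank ℂ (lev J K)

/-- The degree with respect to the dimension `w`. -/
noncomputable def Deg {n : ℕ} (w : ℕ) (J : Ideal (MvPolynomial (Fin n) ℂ)) : ℝ≥0∞ :=
  Filter.liminf (fun K : ℕ => (hil J K : ℝ≥0∞) / (K : ℝ≥0∞) ^ w) atTop

/-- The transcendence degree of the residue class ring. -/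
noncomputable def dimQ {n : ℕ} (J : Ideal (MvPolynomial (Fin n) ℂ)) : ℕ :=
  Cardinal.toNat (Algebra.trdeg ℂ (MvPolynomial (Fin n) ℂ ⧸ J))

/-- The number of elements of `L` of sup norm less than `M`. -/
noncomputable def cnt {n : ℕ} (L : Submodule ℤ (Fin n → ℤ)) (M : ℕ) : ℕ :=
  Set.ncard {a : Fin n → ℤ | a ∈ L ∧ ∀ j, |a j| < (M : ℤ)}

/-- Growth of the number of lattice points. -/
def S_GROW : Prop := ∀ (n : ℕ) (L : Submodule ℤ (Fin n → ℤ)) (M N : ℕ), 0 < M → M ≤ N →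
  cnt L N * M ^ (Module.finrank ℤ L) ≤ (3 * N) ^ (Module.finrank ℤ L) * cnt L M

/-- Components of hypersurface sections have codimension at most one. -/
def S_DIM : Prop := ∀ (n : ℕ) (P Q : Ideal (MvPolynomial (Fin n) ℂ))
  (f : MvPolynomial (Fin n) ℂ), P.IsPrime → f ∉ P →
  Q ∈ (P ⊔ Ideal.span {f}).minimalPrimes → dimQ P ≤ dimQ Q + 1

/-- Upper bound for the Hilbert function. -/
def S_UP : Prop := ∀ (n : ℕ) (P : Ideal (MvPolynomial (Fin n) ℂ)), P.IsPrime →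
  ∃ C : ℕ, ∀ K : ℕ, hil P K ≤ C * (K + 1) ^ dimQ P

/-- Lower bound for the Hilbert function. -/
def S_LOW : Prop := ∀ (n : ℕ) (P : Ideal (MvPolynomial (Fin n) ℂ)), P.IsPrime →
  ∀ K : ℕ, K ^ dimQ P ≤ dimQ P ^ dimQ P * hil P K

/-- Hilbert function of a hypersurface section. -/
def S_MUL : Prop := ∀ (n M : ℕ) (P : Ideal (MvPolynomial (Fin n) ℂ))
  (f : MvPolynomial (Fin n) ℂ), P.IsPrime → f ∉ P → f.totalDegree ≤ M →
  ∀ K : ℕ, hil (P ⊔ Ideal.span {f}) (K + M) + hil P K ≤ hil P (K + M)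

/-- Hilbert functions of several components. -/
def S_SUM : Prop := ∀ (n : ℕ) (J : Ideal (MvPolynomial (Fin n) ℂ))
  (s : Finset (Ideal (MvPolynomial (Fin n) ℂ))), (∀ Q ∈ s, Q.IsPrime ∧ J ≤ Q) →
  (∀ Q ∈ s, ∀ Q' ∈ s, Q ≤ Q' → Q = Q') →
  ∃ c : ℕ, ∀ K : ℕ, ∑ Q ∈ s, hil Q K ≤ hil J (K + c)

/-- Bezout inequality. -/
def S_BEZ : Prop := ∀ (n w M : ℕ) (P : Ideal (MvPolynomial (Fin n) ℂ))
  (f : MvPolynomial (Fin n) ℂ) (s : Finset (Ideal (MvPolynomial (Fin n) ℂ))),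
  P.IsPrime → f ∉ P → f.totalDegree ≤ M → 1 ≤ M →
  (∀ Q ∈ s, Q.IsPrime ∧ P ≤ Q ∧ f ∈ Q) → (∀ Q ∈ s, ∀ Q' ∈ s, Q ≤ Q' → Q = Q') →
  ∑ Q ∈ s, Deg w Q ≤ 2 ^ (w + 2) * (M : ℝ≥0∞) * Deg (w + 1) P

end Pool.Agent.W282.DZ
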