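import Pool.Agent.W282.DZ.Stm
import Pool.Agent.W282.ZP.Geo

/-!
Project DZ: the lattice of the characters equal to one modulo a prime ideal, and dimensions.
-/

open MvPolynomial Filter

namespace Pool.Agent.W282.DZ

open Pool.Agent.W282.ZP

variable {n : ℕ}

/-- The binomial of the exponent vector `a`. -/
noncomputable def bin (a : Fin n → ℤ) : MvPolynomial (Fin n) ℂ :=
  ∏ j, X j ^ (a j).toNat - ∏ j, X j ^ (-a j).toNat

/-- The lattice of the characters equal to one modulo `P`. -/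
noncomputable def lat (P : Ideal (MvPolynomial (Fin n) ℂ)) : Submodule ℤ (Fin n → ℤ) :=
  Submodule.span ℤ {a | bin a ∈ P}

theorem aeval_bin {K : Type} [Field K] [Algebra ℂ K] (z : Fin n → K) (hz : ∀ j, z j ≠ 0)
    (a : Fin n → ℤ) : aeval z (bin a) = 0 ↔ chi z a = 1 := by
  have h3 : (∏ j, z j ^ (-a j).toNat) ≠ 0 :=
    Finset.prod_ne_zero_iff.2 fun i _ => pow_ne_zero _ (hz i)
  have h1 : chi z a = (∏ j, z j ^ (a j).toNat) / ∏ j, z j ^ (-a j).toNat := by
    rw [chi, ← Finset.prod_div_distrib]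
    refine Finset.prod_congr rfl fun j _ => ?_
    rw [← zpow_natCast, ← zpow_natCast, ← zpow_sub₀ (hz j)]
    congr 1
    omega
  rw [bin, map_sub, map_prod, map_prod, sub_eq_zero, h1, div_eq_one_iff_eq h3]
  simp only [map_pow, aeval_X]

theorem eval_bin (x : Fin n → ℂ) (hx : ∀ j, x j ≠ 0) (a : Fin n → ℤ) :
    eval x (bin a) = 0 ↔ ∏ j, x j ^ a j = 1 := by
  have h := aeval_bin (K := ℂ) x hx a
  rw [← coe_aeval_eq_eval]
  exact h

/-- A generic point. -/
theorem exists_point {P : Ideal (MvPolynomial (Fin n) ℂ)} (hP : P.IsPrime) :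
    ∃ (K : Type) (_ : Field K) (_ : Algebra ℂ K) (z : Fin n → K), (∀ f, aeval z f = 0 ↔ f ∈ P) := by
  obtain ⟨K, i1, i2, z, hz, -⟩ := generic_point P
  exact ⟨K, i1, i2, z, hz⟩

theorem point_ne {P : Ideal (MvPolynomial (Fin n) ℂ)} (hX : ∀ j, X j ∉ P) {K : Type} [Field K]
    [Algebra ℂ K] {z : Fin n → K} (hz : ∀ f, aeval z f = 0 ↔ f ∈ P) (j : Fin n) : z j ≠ 0 := by
  intro h
  apply hX j
  rw [← hz, aeval_X, h]

theorem mem_lat_iff {P : Ideal (MvPolynomial (Fin n) ℂ)} {K : Type} [Field K]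
    [Algebra ℂ K] {z : Fin n → K} (hz : ∀ f, aeval z f = 0 ↔ f ∈ P) (hz0 : ∀ j, z j ≠ 0)
    (a : Fin n → ℤ) : a ∈ lat P ↔ chi z a = 1 := by
  constructor
  · intro ha
    have h1 : lat P ≤ oneLat z hz0 := by
      rw [lat, Submodule.span_le]
      intro b hb
      change chi z b = 1
      rw [← aeval_bin z hz0, hz]
      exact hb
    exact h1 ha
  · intro ha
    apply Submodule.subset_span
    change bin a ∈ P
    rw [← hz, aeval_bin z hz0]
    exact ha

theorem mem_lat {P : Ideal (MvPolynomial (Fin n) ℂ)} (hP : P.IsPrime) (hX : ∀ j, X j ∉ P)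
    (a : Fin n → ℤ) : a ∈ lat P ↔ bin a ∈ P := by
  obtain ⟨K, i1, i2, z, hz⟩ := exists_point hP
  rw [mem_lat_iff hz (point_ne hX hz), ← aeval_bin z (point_ne hX hz), hz]

theorem lat_mono {P Q : Ideal (MvPolynomial (Fin n) ℂ)} (h : P ≤ Q) : lat P ≤ lat Q :=
  Submodule.span_mono fun _ ha => h ha

/-- Torsion modulo the lattice of `P`. -/
theorem lat_torsion {P Q : Ideal (MvPolynomial (Fin n) ℂ)} (hP : P.IsPrime) (hQ : Q.IsPrime)
    (hPQ : P ≤ Q) (hX : ∀ j, X j ∉ Q) {k : ℤ} (hk : k ≠ 0) {a : Fin n → ℤ}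
    (ha : a ∈ lat Q) (hka : k • a ∈ lat P) : a ∈ lat P := by
  have hXP : ∀ j, X j ∉ P := fun j h => hX j (hPQ h)
  obtain ⟨K, i1, i2, z, hz⟩ := exists_point hP
  obtain ⟨L, i3, i4, w, hw⟩ := exists_point hQ
  have hz0 := point_ne hXP hz
  have hw0 := point_ne hX hw
  rw [mem_lat_iff hz hz0, chi_zsmul] at hka
  -- the value of the character is a constant
  have halg : IsAlgebraic ℂ (chi z a) := by
    have h1 : chi z a ≠ 0 := Finset.prod_ne_zero_iff.2 fun j _ => zpow_ne_zero _ (hz0 j)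
    have h2 : (chi z a) ^ k.natAbs = 1 := by
      rcases Int.natAbs_eq k with h | h
      · rw [h, zpow_natCast] at hka
        exact hka
      · rw [h, zpow_neg, zpow_natCast, inv_eq_one] at hka
        exact hka
    refine ⟨Polynomial.X ^ k.natAbs - 1, ?_, ?_⟩
    · exact Polynomial.X_pow_sub_C_ne_zero (Int.natAbs_pos.2 hk) 1
    · simp [h2]
  obtain ⟨c, hc⟩ : ∃ c : ℂ, algebraMap ℂ K c = chi z a := by
    have h2 : IsIntegral ℂ (chi z a) := halg.isIntegral
    have h3 : (chi z a) ∈ (⊥ : Subalgebra ℂ K) := by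
      have h4 : (minpoly ℂ (chi z a)).degree = 1 :=
        IsAlgClosed.degree_eq_one_of_irreducible ℂ (minpoly.irreducible h2)
      exact Algebra.mem_bot.2 (minpoly.mem_range_of_degree_eq_one ℂ _ h4)
    exact Algebra.mem_bot.1 h3
  -- the relation with the constant
  have hrel : (∏ j, X j ^ (a j).toNat - C c * ∏ j, X j ^ (-a j).toNat :
      MvPolynomial (Fin n) ℂ) ∈ P := by
    rw [← hz]
    have h3 : (∏ j, z j ^ (-a j).toNat) ≠ 0 :=
      Finset.prod_ne_zero_iff.2 fun i _ => pow_ne_zero _ (hz0 i)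
    have h1 : chi z a = (∏ j, z j ^ (a j).toNat) / ∏ j, z j ^ (-a j).toNat := by
      rw [chi, ← Finset.prod_div_distrib]
      refine Finset.prod_congr rfl fun j _ => ?_
      rw [← zpow_natCast, ← zpow_natCast, ← zpow_sub₀ (hz0 j)]
      congr 1
      omega
    rw [← hc, eq_div_iff h3] at h1
    rw [map_sub, map_mul, map_prod, map_prod, sub_eq_zero]
    simp only [map_pow, aeval_X, algHom_C]
    exact h1.symm
  have hrel' : (bin a : MvPolynomial (Fin n) ℂ) ∈ Q := (mem_lat hQ hX a).1 ha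
  by_cases hc1 : c = 1
  · rw [mem_lat hP hXP, bin]
    rw [hc1, C_1, one_mul] at hrel
    exact hrel
  · exfalso
    have h4 : (C (1 - c) * ∏ j, X j ^ (-a j).toNat : MvPolynomial (Fin n) ℂ) ∈ Q := by
      have h5 := Q.sub_mem (hPQ hrel) hrel'
      have h6 : (∏ j, X j ^ (a j).toNat - C c * ∏ j, X j ^ (-a j).toNat : MvPolynomial (Fin n) ℂ) -
          bin a = C (1 - c) * ∏ j, X j ^ (-a j).toNat := by
        rw [bin, C_sub, C_1]
        ring
      rw [h6] at h5
      exact h5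
    rw [← hw, map_mul, algHom_C, map_prod] at h4
    rcases mul_eq_zero.1 h4 with h5 | h5
    · apply hc1
      rw [map_eq_zero, sub_eq_zero] at h5
      exact h5.symm
    · simp only [map_pow, aeval_X] at h5
      exact Finset.prod_ne_zero_iff.2 (fun j _ => pow_ne_zero _ (hw0 j)) h5

theorem totalDegree_bin {M : ℕ} {a : Fin n → ℤ} (ha : ∀ j, |a j| < (M : ℤ)) :
    (bin a).totalDegree ≤ n * M := by
  have key : ∀ e : Fin n → ℕ, (∀ j, e j ≤ M) →
      (∏ j, X j ^ e j : MvPolynomial (Fin n) ℂ).totalDegree ≤ n * M := by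
    intro e he
    refine (totalDegree_finsetProd _ _).trans ?_
    calc ∑ j : Fin n, (X j ^ e j : MvPolynomial (Fin n) ℂ).totalDegree ≤ ∑ j : Fin n, M := by
          refine Finset.sum_le_sum fun j _ => ?_
          rw [totalDegree_X_pow]
          exact he j
      _ = n * M := by simp
  refine (totalDegree_sub _ _).trans (max_le (key _ fun j => ?_) (key _ fun j => ?_))
  · have := abs_lt.1 (ha j)
    omega
  · have := abs_lt.1 (ha j)
    omega

/-- Transcendence degrees are finite. -/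
theorem trdeg_lt (P : Ideal (MvPolynomial (Fin n) ℂ)) (hP : P.IsPrime) :
    Algebra.trdeg ℂ (MvPolynomial (Fin n) ℂ ⧸ P) < Cardinal.aleph0 := by
  obtain ⟨K, i1, i2, z, hz, T, hT, h⟩ := generic_point P
  exact h.trans_lt (Cardinal.natCast_lt_aleph0)

theorem rank_add_dim {P : Ideal (MvPolynomial (Fin n) ℂ)} (hP : P.IsPrime) (hX : ∀ j, X j ∉ P) :
    Module.finrank ℤ (lat P) + dimQ P ≤ n := by
  obtain ⟨K, i1, i2, z, hz, T, hT, h⟩ := generic_point P
  have hz0 := point_ne hX hz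
  have h1 : dimQ P ≤ T.card := by
    have h2 := Cardinal.toNat_le_toNat h Cardinal.natCast_lt_aleph0
    rwa [Cardinal.toNat_natCast] at h2
  have h2 := finrank_add_card' (F := ℂ) z hz0 T hT (lat P)
    (fun a ha => ⟨1, by rw [map_one]; exact (mem_lat_iff hz hz0 a).1 ha⟩) ⊤ le_top
    (fun j _ => Submodule.mem_top)
  rw [finrank_top, Module.finrank_fintype_fun_eq_card, Fintype.card_fin] at h2
  omega

/-- Dimension drops. -/
theorem dim_lt {P Q : Ideal (MvPolynomial (Fin n) ℂ)} (hP : P.IsPrime) (hQ : Q.IsPrime)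
    (hPQ : P < Q) : dimQ Q < dimQ P := by
  classical
  by_contra hcon
  push Not at hcon
  obtain ⟨K, i1, i2, z, hz, T, hT, h⟩ := generic_point Q
  obtain ⟨hle, f, hfQ, hfP⟩ := SetLike.lt_iff_le_and_exists.1 hPQ
  have hT1 : dimQ Q ≤ T.card := by
    have h2 := Cardinal.toNat_le_toNat h Cardinal.natCast_lt_aleph0
    rwa [Cardinal.toNat_natCast] at h2
  -- independence modulo `P`
  let x : T → MvPolynomial (Fin n) ℂ ⧸ P := fun j => Ideal.Quotient.mk P (X (j : Fin n))
  let φ : (MvPolynomial (Fin n) ℂ ⧸ P) →ₐ[ℂ] K :=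
    Ideal.Quotient.liftₐ P (aeval z) (fun f hf => (hz f).2 (hle hf))
  have hφ : ∀ f, φ (Ideal.Quotient.mk P f) = aeval z f := fun f => rfl
  have hx : AlgebraicIndependent ℂ x := by
    apply AlgebraicIndependent.of_comp φ
    have h2 : (φ ∘ x) = fun j : T => z j := by
      funext e
      simp only [Function.comp_apply, x, hφ, aeval_X]
    rw [h2]
    exact hT
  have hfin := trdeg_lt P hP
  have hbasis : IsTranscendenceBasis ℂ x := by
    apply hx.isTranscendenceBasis_of_trdeg_le_of_finite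
    rw [Cardinal.mk_fintype, Fintype.card_coe, ← Cardinal.cast_toNat_of_lt_aleph0 hfin]
    exact_mod_cast hcon.trans hT1
  have halg := hbasis.isAlgebraic
  let q : Ideal (MvPolynomial (Fin n) ℂ ⧸ P) := Q.map (Ideal.Quotient.mk P)
  have hfq : Ideal.Quotient.mk P f ∈ q := Ideal.mem_map_of_mem _ hfQ
  have hf0 : Ideal.Quotient.mk P f ≠ 0 := by
    rw [Ne, Ideal.Quotient.eq_zero_iff_mem]
    exact hfP
  have h3 := Ideal.comap_ne_bot_of_algebraic_mem hf0 hfq
    (halg.isAlgebraic (Ideal.Quotient.mk P f))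
  rw [Submodule.ne_bot_iff] at h3
  obtain ⟨g, hg, hg0⟩ := h3
  have hg1 : (g : MvPolynomial (Fin n) ℂ ⧸ P) ∈ q := hg
  have hg2 : (g : MvPolynomial (Fin n) ℂ ⧸ P) ∈ (aeval x : MvPolynomial T ℂ →ₐ[ℂ] _).range := by
    rw [← Algebra.adjoin_range_eq_range_aeval]
    exact g.2
  obtain ⟨p, hp⟩ := hg2
  have hφg : φ (g : MvPolynomial (Fin n) ℂ ⧸ P) = 0 := by
    obtain ⟨g', hg'⟩ := Ideal.Quotient.mk_surjective (g : MvPolynomial (Fin n) ℂ ⧸ P)
    rw [← hg'] at hg1 ⊢
    rw [hφ, hz]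
    have h5 : g' ∈ (Q.map (Ideal.Quotient.mk P)).comap (Ideal.Quotient.mk P) := hg1
    rwa [Ideal.comap_map_of_surjective _ Ideal.Quotient.mk_surjective, ← RingHom.ker_eq_comap_bot,
      Ideal.mk_ker, sup_eq_left.2 hle] at h5
  have hp0 : aeval (fun j : T => z j) p = 0 := by
    have h6 : φ (aeval x p) = aeval (fun j : T => z j) p := by
      have h7 : (φ.comp (aeval x)) = aeval (fun j : T => z j) := by
        apply MvPolynomial.algHom_ext
        intro e
        simp only [AlgHom.comp_apply, aeval_X]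
        exact (hφ _).trans (aeval_X _ _)
      rw [← h7]
      rfl
    rw [← h6]
    have h8 : aeval x p = (g : MvPolynomial (Fin n) ℂ ⧸ P) := hp
    rw [h8]
    exact hφg
  have hp1 : p = 0 := hT (by rw [hp0, map_zero])
  apply hg0
  apply Subtype.ext
  have h8 : aeval x p = (g : MvPolynomial (Fin n) ℂ ⧸ P) := hp
  rw [← h8, hp1, map_zero]
  rfl

end Pool.Agent.W282.DZ
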