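import Pool.Agent.W282.DZ.Sec

/-!
Project DZ: the recursion.
-/

open MvPolynomial Filter
open scoped ENNReal

namespace Pool.Agent.W282.DZ

open Pool.Agent.W282.ZP

variable {n : ℕ}

/-- Tuples of exponent vectors of size less than `2 ^ b`. -/
noncomputable def box (r n b : ℕ) : Finset (Fin r → Fin n → ℤ) :=
  Fintype.piFinset fun _ => Fintype.piFinset fun _ => Finset.Ioo (-(2 : ℤ) ^ b) (2 ^ b)

theorem mem_box {r n b : ℕ} {lam : Fin r → Fin n → ℤ} :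
    lam ∈ box r n b ↔ ∀ t j, |lam t j| < (2 : ℤ) ^ b := by
  simp only [box, Fintype.mem_piFinset, Finset.mem_Ioo, abs_lt]

/-- `Q` is the ideal of a bad component for the tuple `lam`. -/
def Wit (P : Ideal (MvPolynomial (Fin n) ℂ)) (u i b : ℕ) {r : ℕ} (lam : Fin r → Fin n → ℤ)
    (Q : Ideal (MvPolynomial (Fin n) ℂ)) : Prop :=
  Q.IsPrime ∧ P ≤ Q ∧ (∀ j, X j ∉ Q) ∧ (∀ t, lam t ∈ lat Q) ∧ dimQ Q + u = dimQ P ∧
    (∀ a ∈ lat Q, (∀ j, |a j| < (2 : ℤ) ^ i) → a ∈ lat P) ∧ MinOver P b Q ∧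
    Module.finrank ℤ (lat Q) < n

open Classical in
/-- The bad tuples. -/
noncomputable def bad (P : Ideal (MvPolynomial (Fin n) ℂ)) (u i b r : ℕ) :
    Finset (Fin r → Fin n → ℤ) :=
  (box r n b).filter fun lam => ∃ Q, Wit P u i b lam Q

theorem mem_bad {P : Ideal (MvPolynomial (Fin n) ℂ)} {u i b r : ℕ} {lam : Fin r → Fin n → ℤ} :
    lam ∈ bad P u i b r ↔ (∀ t j, |lam t j| < (2 : ℤ) ^ b) ∧ ∃ Q, Wit P u i b lam Q := by
  classical
  rw [bad, Finset.mem_filter, mem_box]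

theorem cnt_grow (L : Submodule ℤ (Fin n → ℤ)) (i d : ℕ) :
    cnt L (2 ^ (i + d)) ≤
      3 ^ (Module.finrank ℤ L) * 2 ^ (d * Module.finrank ℤ L) * cnt L (2 ^ i) := by
  set ρ := Module.finrank ℤ L with hρ
  have h1 := Pool.Agent.W613.DZ.grow n L (2 ^ i) (2 ^ (i + d)) (by positivity)
    (Nat.pow_le_pow_right (by norm_num) (Nat.le_add_right _ _))
  rw [← hρ] at h1
  have h2 : (3 * 2 ^ (i + d)) ^ ρ = (3 ^ ρ * 2 ^ (d * ρ)) * (2 ^ i) ^ ρ := by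
    rw [mul_pow, pow_add, mul_pow, pow_mul]
    ring
  rw [h2] at h1
  have h3 : 0 < ((2 : ℕ) ^ i) ^ ρ := by positivity
  refine Nat.le_of_mul_le_mul_right ?_ h3
  calc cnt L (2 ^ (i + d)) * (2 ^ i) ^ ρ ≤ 3 ^ ρ * 2 ^ (d * ρ) * (2 ^ i) ^ ρ * cnt L (2 ^ i) := h1
    _ = 3 ^ ρ * 2 ^ (d * ρ) * cnt L (2 ^ i) * (2 ^ i) ^ ρ := by ring

theorem bad_zero {P : Ideal (MvPolynomial (Fin n) ℂ)} (hP : P.IsPrime) (i d r : ℕ) :
    (bad P 0 i (i + d) r).card ≤ (cnt (lat P) (2 ^ (i + d))) ^ r := by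
  classical
  set t : Finset (Fin n → ℤ) := (cnt_finite (lat P) (2 ^ (i + d))).toFinset with ht
  have htc : t.card = cnt (lat P) (2 ^ (i + d)) := by
    rw [cnt, Set.ncard_eq_toFinset_card _ (cnt_finite (lat P) _)]
  have hsub : bad P 0 i (i + d) r ⊆ Fintype.piFinset fun _ : Fin r => t := by
    intro lam hlam
    obtain ⟨hb, Q, hQ, hPQ, hX, hmem, hd, -, -, -⟩ := mem_bad.1 hlam
    have hPQ' : P = Q := eq_of_dim hP hQ hPQ (by omega)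
    refine Fintype.mem_piFinset.2 fun s => (Set.Finite.mem_toFinset _).2 ?_
    refine ⟨?_, fun j => ?_⟩
    · rw [hPQ']
      exact hmem s
    · have := hb s j
      push_cast
      exact this
  refine (Finset.card_le_card hsub).trans (le_of_eq ?_)
  rw [Fintype.card_piFinset, Finset.prod_const, Finset.card_univ, Fintype.card_fin, htc]

theorem arith {n q δ u ρ i d f C S ce ci : ℕ} (hρ : ρ ≤ n)
    (h1 : S * ce ≤ (6 * 2 ^ (i + d)) ^ n) (h2 : ce ≤ 3 ^ ρ * 2 ^ (d * ρ) * ci)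
    (hE : (n + 1) * (u + 1) + ρ * q + δ ≤ n * (u + 1 + q)) (b : ℕ) :
    (C * (b + 1) ^ u * ce ^ (q + 1) * 2 ^ (f * (n * (u + 1 + q) - δ)) *
      2 ^ ((i + d) * (n + 1) * u)) * (S * (2 ^ (n + 1) * (n * 2 ^ (i + d + 1)))) ≤
    C * 6 ^ n * 3 ^ (n * (u + 1 + q)) * 2 ^ (n + 2) * n * (b + 1) ^ u * ci ^ q *
      2 ^ ((d + f) * (n * (u + 1 + q) - δ)) * 2 ^ (i * (n + 1) * (u + 1)) := by
  set r := u + 1 + q with hr
  set N := n * r - δ with hN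
  have hE' : (n + 1) * (u + 1) + ρ * q ≤ N := by omega
  have h3 : ce ^ q ≤ 3 ^ (n * r) * 2 ^ (d * ρ * q) * ci ^ q := by
    calc ce ^ q ≤ (3 ^ ρ * 2 ^ (d * ρ) * ci) ^ q := Nat.pow_le_pow_left h2 q
      _ = 3 ^ (ρ * q) * 2 ^ (d * ρ * q) * ci ^ q := by
          rw [mul_pow, mul_pow, ← pow_mul, ← pow_mul]
      _ ≤ 3 ^ (n * r) * 2 ^ (d * ρ * q) * ci ^ q := by
          have h4 : ρ * q ≤ n * r := Nat.mul_le_mul hρ (by omega)
          gcongr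
          norm_num
  have h5 : 2 ^ ((i + d) * n) * 2 ^ (d * ρ * q) * 2 ^ (f * N) * 2 ^ ((i + d) * (n + 1) * u) *
      2 ^ (i + d) ≤ 2 ^ ((d + f) * N) * 2 ^ (i * (n + 1) * (u + 1)) := by
    rw [← pow_add, ← pow_add, ← pow_add, ← pow_add, ← pow_add]
    refine Nat.pow_le_pow_right (by norm_num) ?_
    have h6 : d * ((n + 1) * (u + 1) + ρ * q) ≤ d * N := Nat.mul_le_mul_left d hE'
    calc (i + d) * n + d * ρ * q + f * N + (i + d) * (n + 1) * u + (i + d)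
        = d * ((n + 1) * (u + 1) + ρ * q) + f * N + i * (n + 1) * (u + 1) := by ring
      _ ≤ d * N + f * N + i * (n + 1) * (u + 1) := by omega
      _ = (d + f) * N + i * (n + 1) * (u + 1) := by ring
  calc (C * (b + 1) ^ u * ce ^ (q + 1) * 2 ^ (f * N) * 2 ^ ((i + d) * (n + 1) * u)) *
        (S * (2 ^ (n + 1) * (n * 2 ^ (i + d + 1))))
      = C * (b + 1) ^ u * (S * ce) * ce ^ q * 2 ^ (f * N) * 2 ^ ((i + d) * (n + 1) * u) *
        (2 ^ (n + 2) * n * 2 ^ (i + d)) := by ring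
    _ ≤ C * (b + 1) ^ u * ((6 * 2 ^ (i + d)) ^ n) * (3 ^ (n * r) * 2 ^ (d * ρ * q) * ci ^ q) *
        2 ^ (f * N) * 2 ^ ((i + d) * (n + 1) * u) * (2 ^ (n + 2) * n * 2 ^ (i + d)) := by
        gcongr
    _ = (C * 6 ^ n * 3 ^ (n * r) * 2 ^ (n + 2) * n * (b + 1) ^ u * ci ^ q) *
        (2 ^ ((i + d) * n) * 2 ^ (d * ρ * q) * 2 ^ (f * N) * 2 ^ ((i + d) * (n + 1) * u) *
        2 ^ (i + d)) := by
        rw [mul_pow, ← pow_mul]
        ring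
    _ ≤ (C * 6 ^ n * 3 ^ (n * r) * 2 ^ (n + 2) * n * (b + 1) ^ u * ci ^ q) *
        (2 ^ ((d + f) * N) * 2 ^ (i * (n + 1) * (u + 1))) := Nat.mul_le_mul_left _ h5
    _ = _ := by ring

end Pool.Agent.W282.DZ
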