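import Pool.Agent.W282.DZ.Rec

/-!
Project DZ: the recursion, main step.
-/

open MvPolynomial Filter
open scoped ENNReal

namespace Pool.Agent.W282.DZ

open Pool.Agent.W282.ZP

variable {n : ℕ}

/-- The sections of `P` used for the exponent vector `μ` at the level `e`. -/
def Good (P : Ideal (MvPolynomial (Fin n) ℂ)) (u e : ℕ) (P' : Ideal (MvPolynomial (Fin n) ℂ)) :
    Prop :=
  (∀ j, X j ∉ P') ∧ dimQ P' + 1 = dimQ P ∧
    (∀ a ∈ lat P', (∀ j, |a j| < (2 : ℤ) ^ e) → a ∈ lat P) ∧ Module.finrank ℤ (lat P') + u < n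

open Classical in
/-- The good sections. -/
noncomputable def secs (P : Ideal (MvPolynomial (Fin n) ℂ)) (u e : ℕ) (μ : Fin n → ℤ) :
    Finset (Ideal (MvPolynomial (Fin n) ℂ)) :=
  (Ideal.finite_minimalPrimes_of_isNoetherianRing (MvPolynomial (Fin n) ℂ)
    (P ⊔ Ideal.span {bin μ})).toFinset.filter (Good P u e)

theorem mem_secs {P : Ideal (MvPolynomial (Fin n) ℂ)} {u e : ℕ} {μ : Fin n → ℤ}
    {P' : Ideal (MvPolynomial (Fin n) ℂ)} :
    P' ∈ secs P u e μ ↔ P' ∈ (P ⊔ Ideal.span {bin μ}).minimalPrimes ∧ Good P u e P' := by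
  classical
  rw [secs, Finset.mem_filter, Set.Finite.mem_toFinset]

theorem cover {P : Ideal (MvPolynomial (Fin n) ℂ)} (hP : P.IsPrime) {u i b r : ℕ}
    {S : ℕ → Finset (Fin n → ℤ)}
    (hS : ∀ e, ∀ a : Fin n → ℤ, (∀ j, |a j| < (2 : ℤ) ^ (e + 1)) → a ∉ lat P →
      ∃ μ ∈ S e, a - μ ∈ lat P) {lam : Fin r → Fin n → ℤ} (hlam : lam ∈ bad P (u + 1) i b r) :
    ∃ e ∈ Finset.Ico i b, ∃ μ ∈ S e, ∃ P' ∈ secs P u e μ, lam ∈ bad P' u e b r := by
  classical
  obtain ⟨hbox, Q, hQ, hPQ, hX, hmem, hd, hsm, hmin, hrk⟩ := mem_bad.1 hlam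
  have hne : P ≠ Q := by
    rintro rfl
    omega
  obtain ⟨μ, hμQ, hμb, hμP⟩ := exists_mu hP hPQ hmin hne
  have hbpos : b ≠ 0 := by
    rintro rfl
    apply hμP
    have h0 : μ = 0 := by
      funext j
      have h1 := hμb j
      rw [pow_zero] at h1
      have h2 := abs_nonneg (μ j)
      exact abs_eq_zero.1 (by omega)
    rw [h0]
    exact (lat P).zero_mem
  have hex : ∃ e, ∃ μ ∈ lat Q, (∀ j, |μ j| < (2 : ℤ) ^ (e + 1)) ∧ μ ∉ lat P := by
    refine ⟨b - 1, μ, hμQ, ?_, hμP⟩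
    rw [Nat.sub_add_cancel (Nat.one_le_iff_ne_zero.2 hbpos)]
    exact hμb
  obtain ⟨μ₁, hμ₁Q, hμ₁e, hμ₁P⟩ := Nat.find_spec hex
  have hmin' := fun {m : ℕ} => Nat.find_min (H := hex) (m := m)
  have hleb : Nat.find hex < b := by
    have h1 := Nat.find_min' hex (m := b - 1) ⟨μ, hμQ, by
      rw [Nat.sub_add_cancel (Nat.one_le_iff_ne_zero.2 hbpos)]
      exact hμb, hμP⟩
    omega
  set e := Nat.find hex with he
  have hsmall : ∀ a ∈ lat Q, (∀ j, |a j| < (2 : ℤ) ^ e) → a ∈ lat P := by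
    intro a haQ ha
    by_contra hcon
    rcases Nat.eq_zero_or_pos e with h0 | h0
    · apply hcon
      have h3 : a = 0 := by
        funext j
        have h1 := ha j
        rw [h0, pow_zero] at h1
        have h2 := abs_nonneg (a j)
        exact abs_eq_zero.1 (by omega)
      rw [h3]
      exact (lat P).zero_mem
    · refine hmin' (m := e - 1) (by omega) ⟨a, haQ, ?_, hcon⟩
      rw [Nat.sub_add_cancel h0]
      exact ha
  have hie : i ≤ e := by
    by_contra hlt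
    push Not at hlt
    apply hμ₁P
    refine hsm μ₁ hμ₁Q fun j => (hμ₁e j).trans_le ?_
    exact pow_le_pow_right₀ (by norm_num) hlt
  obtain ⟨μ₀, hμ₀S, hμ₀⟩ := hS e μ₁ hμ₁e hμ₁P
  have hμ₀Q : μ₀ ∈ lat Q := by
    have h1 := (lat Q).sub_mem hμ₁Q (lat_mono hPQ hμ₀)
    rwa [sub_sub_cancel] at h1
  have hμ₀P : μ₀ ∉ lat P := by
    intro h
    apply hμ₁P
    have h1 := (lat P).add_mem hμ₀ h
    rwa [sub_add_cancel] at h1
  obtain ⟨P', hP', hP'Q, hd'⟩ := exists_section hP hQ hPQ hX hμ₀Q hμ₀P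
  have hprime : P'.IsPrime := hP'.1.1
  have hPP' : P ≤ P' := le_sup_left.trans hP'.1.2
  have hX' : ∀ j, X j ∉ P' := fun j h => hX j (hP'Q h)
  have hdd : dimQ Q + u = dimQ P' := by omega
  have hgap := gap b u P' Q hprime hQ hP'Q hX hdd (hmin.mono hPP')
  refine ⟨e, Finset.mem_Ico.2 ⟨hie, hleb⟩, μ₀, hμ₀S, P', mem_secs.2 ⟨hP', hX', hd', ?_, ?_⟩, ?_⟩
  · intro a ha hae
    exact hsmall a (lat_mono hP'Q ha) hae
  · omega
  · refine mem_bad.2 ⟨hbox, Q, hQ, hP'Q, hX, hmem, hdd, ?_, hmin.mono hPP', hrk⟩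
    intro a ha hae
    exact lat_mono hPP' (hsmall a ha hae)

theorem recursion (n r δ : ℕ) (hδ : δ ≤ r) (u : ℕ) : ∃ C : ℕ,
    ∀ P : Ideal (MvPolynomial (Fin n) ℂ), P.IsPrime → (∀ j, X j ∉ P) → ∀ i d : ℕ, u < r →
    (n + 1) * u + Module.finrank ℤ (lat P) * (r - u) + δ ≤ n * r →
    ((bad P u i (i + d) r).card : ℝ≥0∞) ≤
      ((C * (i + d + 1) ^ u * (cnt (lat P) (2 ^ i)) ^ (r - u) * 2 ^ (d * (n * r - δ)) *
        2 ^ (i * (n + 1) * u) : ℕ) : ℝ≥0∞) * Deg (dimQ P) P := by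
  classical
  induction u with
  | zero =>
    refine ⟨3 ^ (n * r) * n ^ n, fun P hP hX i d hu hE => ?_⟩
    set L := lat P with hL
    set ρ := Module.finrank ℤ L with hρ
    have hρn : ρ + dimQ P ≤ n := rank_add_dim hP hX
    have h1 := bad_zero hP i d r
    have h2 := cnt_grow L i d
    rw [← hρ] at h2
    have h3 : (bad P 0 i (i + d) r).card ≤
        3 ^ (n * r) * (cnt L (2 ^ i)) ^ r * 2 ^ (d * (n * r - δ)) := by
      refine h1.trans ?_
      calc (cnt L (2 ^ (i + d))) ^ r ≤ (3 ^ ρ * 2 ^ (d * ρ) * cnt L (2 ^ i)) ^ r :=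
            Nat.pow_le_pow_left h2 r
        _ = 3 ^ (ρ * r) * (cnt L (2 ^ i)) ^ r * 2 ^ (d * (ρ * r)) := by
            rw [mul_pow, mul_pow, ← pow_mul, ← pow_mul]
            ring
        _ ≤ 3 ^ (n * r) * (cnt L (2 ^ i)) ^ r * 2 ^ (d * (n * r - δ)) := by
            have h4 : ρ * r ≤ n * r := Nat.mul_le_mul_right r (by omega)
            have h5 : ρ * r ≤ n * r - δ := by
              rw [Nat.sub_zero] at hE
              omega
            have h6 : d * (ρ * r) ≤ d * (n * r - δ) := Nat.mul_le_mul_left d h5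
            gcongr
            · norm_num
            · norm_num
    have h7 := one_le_deg hP (by omega : dimQ P ≤ n)
    calc ((bad P 0 i (i + d) r).card : ℝ≥0∞)
        ≤ ((3 ^ (n * r) * (cnt L (2 ^ i)) ^ r * 2 ^ (d * (n * r - δ)) : ℕ) : ℝ≥0∞) := by
          exact_mod_cast h3
      _ = ((3 ^ (n * r) * (cnt L (2 ^ i)) ^ r * 2 ^ (d * (n * r - δ)) : ℕ) : ℝ≥0∞) * 1 :=
          (mul_one _).symm
      _ ≤ ((3 ^ (n * r) * (cnt L (2 ^ i)) ^ r * 2 ^ (d * (n * r - δ)) : ℕ) : ℝ≥0∞) *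
          (((n ^ n : ℕ) : ℝ≥0∞) * Deg (dimQ P) P) := mul_le_mul' le_rfl h7
      _ = _ := by
          rw [← mul_assoc, ← Nat.cast_mul]
          congr 2
          rw [pow_zero, Nat.sub_zero, Nat.mul_zero, pow_zero]
          ring
  | succ u ih =>
    obtain ⟨C, hC⟩ := ih
    refine ⟨C * 6 ^ n * 3 ^ (n * r) * 2 ^ (n + 2) * n, fun P hP hX i d hu hE => ?_⟩
    set L := lat P with hL
    set ρ := Module.finrank ℤ L with hρ
    have hρn : ρ + dimQ P ≤ n := rank_add_dim hP hX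
    rcases (bad P (u + 1) i (i + d) r).eq_empty_or_nonempty with hemp | hne
    · rw [hemp]
      simp
    obtain ⟨lam0, hlam0⟩ := hne
    obtain ⟨-, Q0, hQ0, -, -, -, hd0, -, -, hrk0⟩ := mem_bad.1 hlam0
    have hn : 0 < n := by omega
    obtain ⟨w, hw⟩ : ∃ w, dimQ P = w + 1 := ⟨dimQ P - 1, by omega⟩
    obtain ⟨q, hq⟩ : ∃ q, r = u + 1 + q := ⟨r - (u + 1), by omega⟩
    have hq1 : 1 ≤ q := by omega
    -- representatives
    let T : ℕ → Finset (Fin n → ℤ) := fun e =>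
      (Fintype.piFinset fun _ => Finset.Ioo (-(2 : ℤ) ^ (e + 1)) (2 ^ (e + 1))).filter
        fun a => a ∉ L
    choose S hST hSinj hSrep using fun e => exists_reps L (T e)
    have hTmem : ∀ e (a : Fin n → ℤ), a ∈ T e ↔ (∀ j, |a j| < (2 : ℤ) ^ (e + 1)) ∧ a ∉ L := by
      intro e a
      simp only [T, Finset.mem_filter, Fintype.mem_piFinset, Finset.mem_Ioo, abs_lt]
    have hS : ∀ e, ∀ a : Fin n → ℤ, (∀ j, |a j| < (2 : ℤ) ^ (e + 1)) → a ∉ L →
        ∃ μ ∈ S e, a - μ ∈ L := fun e a h1 h2 => hSrep e a ((hTmem e a).2 ⟨h1, h2⟩)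
    have hScard : ∀ e, (S e).card * cnt L (2 ^ e) ≤ (6 * 2 ^ e) ^ n := by
      intro e
      refine cls L (2 ^ e) (by positivity) (S e) (fun a ha j => ?_) (hSinj e)
      have h1 := ((hTmem e a).1 (hST e ha)).1 j
      rw [pow_succ] at h1
      push_cast
      linarith
    -- the cover
    have hcov : bad P (u + 1) i (i + d) r ⊆ (Finset.Ico i (i + d)).biUnion fun e =>
        (S e).biUnion fun μ => (secs P u e μ).biUnion fun P' => bad P' u e (i + d) r := by
      intro lam hlam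
      obtain ⟨e, he, μ, hμ, P', hP', hl⟩ := cover hP hS hlam
      exact Finset.mem_biUnion.2 ⟨e, he, Finset.mem_biUnion.2 ⟨μ, hμ,
        Finset.mem_biUnion.2 ⟨P', hP', hl⟩⟩⟩
    have hsum : (bad P (u + 1) i (i + d) r).card ≤ ∑ e ∈ Finset.Ico i (i + d), ∑ μ ∈ S e,
        ∑ P' ∈ secs P u e μ, (bad P' u e (i + d) r).card := by
      refine (Finset.card_le_card hcov).trans (Finset.card_biUnion_le.trans ?_)
      refine Finset.sum_le_sum fun e _ => Finset.card_biUnion_le.trans ?_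
      exact Finset.sum_le_sum fun μ _ => Finset.card_biUnion_le
    -- one section
    set N := n * r - δ with hN
    have hone : ∀ e ∈ Finset.Ico i (i + d), ∀ μ ∈ S e, ∀ P' ∈ secs P u e μ,
        ((bad P' u e (i + d) r).card : ℝ≥0∞) ≤
        ((C * (i + d + 1) ^ u * (cnt L (2 ^ e)) ^ (q + 1) * 2 ^ ((i + d - e) * N) *
          2 ^ (e * (n + 1) * u) : ℕ) : ℝ≥0∞) * Deg w P' := by
      intro e he μ hμ P' hP'
      obtain ⟨hP'm, hX', hd', hsm, hrk⟩ := mem_secs.1 hP'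
      have hprime : P'.IsPrime := hP'm.1.1
      have hw' : dimQ P' = w := by omega
      rw [Finset.mem_Ico] at he
      obtain ⟨f, hf⟩ : ∃ f, i + d = e + f := ⟨i + d - e, by omega⟩
      have hE' : (n + 1) * u + Module.finrank ℤ (lat P') * (r - u) + δ ≤ n * r := by
        obtain ⟨l, hl⟩ : ∃ l, n = Module.finrank ℤ (lat P') + u + 1 + l :=
          ⟨n - (Module.finrank ℤ (lat P') + u + 1), by omega⟩
        obtain ⟨k, hk⟩ : ∃ k, q = k + 1 := ⟨q - 1, by omega⟩
        have hru : r - u = k + 2 := by omega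
        have hr : r = u + 2 + k := by omega
        rw [hru]
        generalize Module.finrank ℤ (lat P') = ρ' at hl
        rw [hl, hr]
        have hδ' : δ ≤ u + 2 + k := by omega
        nlinarith [Nat.zero_le (u * k), Nat.zero_le (l * k), Nat.zero_le l]
      have h1 := hC P' hprime hX' e f (by omega) hE'
      rw [hw'] at h1
      have hcm : cnt (lat P') (2 ^ e) ≤ cnt L (2 ^ e) := by
        refine cnt_mono fun a ha hae => hsm a ha fun j => ?_
        have := hae j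
        push_cast at this
        exact this
      have hrq : r - u = q + 1 := by omega
      rw [hrq] at h1
      rw [hf]
      have hef : e + f - e = f := by omega
      rw [hef]
      refine h1.trans ?_
      refine mul_le_mul' ?_ le_rfl
      refine Nat.cast_le.2 ?_
      gcongr
    -- sum over the sections
    have hbez : ∀ e ∈ Finset.Ico i (i + d), ∀ μ ∈ S e, ∑ P' ∈ secs P u e μ, Deg w P' ≤
        ((2 ^ (n + 1) * (n * 2 ^ (e + 1)) : ℕ) : ℝ≥0∞) * Deg (dimQ P) P := by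
      intro e he μ hμ
      have hμT := (hTmem e μ).1 (hST e hμ)
      have hbin : bin μ ∉ P := fun h => hμT.2 (Submodule.subset_span h)
      have hdeg : (bin μ).totalDegree ≤ n * 2 ^ (e + 1) := by
        refine totalDegree_bin fun j => ?_
        push_cast
        exact hμT.1 j
      have hM : 1 ≤ n * 2 ^ (e + 1) := Nat.one_le_iff_ne_zero.2 (by positivity)
      have h1 := Pool.Agent.W125.DZ.bez Pool.Agent.W563.DZ.mul Pool.Agent.W563.DZ.sum n w
        (n * 2 ^ (e + 1)) P (bin μ) (secs P u e μ) hP hbin hdeg hM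
        (fun Q hQ => by
          obtain ⟨hQm, -⟩ := mem_secs.1 hQ
          exact ⟨hQm.1.1, le_sup_left.trans hQm.1.2,
            hQm.1.2 (Ideal.mem_sup_right (Ideal.mem_span_singleton_self _))⟩)
        (fun Q hQ Q' hQ' hle => by
          obtain ⟨hQm, -⟩ := mem_secs.1 hQ
          obtain ⟨hQm', -⟩ := mem_secs.1 hQ'
          exact le_antisymm hle (hQm'.2 hQm.1 hle))
      rw [← hw] at h1
      refine h1.trans ?_
      have h2 : (2 : ℝ≥0∞) ^ (w + 2) * ((n * 2 ^ (e + 1) : ℕ) : ℝ≥0∞) =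
          ((2 ^ (w + 2) * (n * 2 ^ (e + 1)) : ℕ) : ℝ≥0∞) := by push_cast; ring
      rw [h2]
      refine mul_le_mul' ?_ le_rfl
      refine Nat.cast_le.2 (Nat.mul_le_mul_right _ (Nat.pow_le_pow_right (by norm_num) ?_))
      omega
    -- assemble
    have hfin : ∀ e ∈ Finset.Ico i (i + d), (∑ μ ∈ S e, ∑ P' ∈ secs P u e μ,
        ((bad P' u e (i + d) r).card : ℝ≥0∞)) ≤
        ((C * 6 ^ n * 3 ^ (n * r) * 2 ^ (n + 2) * n * (i + d + 1) ^ u * cnt L (2 ^ i) ^ q *
          2 ^ (d * N) * 2 ^ (i * (n + 1) * (u + 1)) : ℕ) : ℝ≥0∞) * Deg (dimQ P) P := by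
      intro e he
      have he' := Finset.mem_Ico.1 he
      set K : ℕ := C * (i + d + 1) ^ u * (cnt L (2 ^ e)) ^ (q + 1) * 2 ^ ((i + d - e) * N) *
          2 ^ (e * (n + 1) * u) with hK
      calc (∑ μ ∈ S e, ∑ P' ∈ secs P u e μ, ((bad P' u e (i + d) r).card : ℝ≥0∞))
          ≤ ∑ μ ∈ S e, ∑ P' ∈ secs P u e μ, (K : ℝ≥0∞) * Deg w P' :=
            Finset.sum_le_sum fun μ hμ => Finset.sum_le_sum fun P' hP' => hone e he μ hμ P' hP'
        _ = ∑ μ ∈ S e, (K : ℝ≥0∞) * ∑ P' ∈ secs P u e μ, Deg w P' :=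
            Finset.sum_congr rfl fun μ _ => (Finset.mul_sum _ _ _).symm
        _ ≤ ∑ μ ∈ S e, (K : ℝ≥0∞) *
            (((2 ^ (n + 1) * (n * 2 ^ (e + 1)) : ℕ) : ℝ≥0∞) * Deg (dimQ P) P) :=
            Finset.sum_le_sum fun μ hμ => mul_le_mul' le_rfl (hbez e he μ hμ)
        _ = ((K * ((S e).card * (2 ^ (n + 1) * (n * 2 ^ (e + 1)))) : ℕ) : ℝ≥0∞) *
            Deg (dimQ P) P := by
            rw [Finset.sum_const, nsmul_eq_mul]
            push_cast
            ring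
        _ ≤ _ := by
            refine mul_le_mul' (Nat.cast_le.2 ?_) le_rfl
            obtain ⟨d', hd'⟩ : ∃ d', e = i + d' := ⟨e - i, by omega⟩
            obtain ⟨f, hf⟩ : ∃ f, d = d' + f := ⟨d - d', by omega⟩
            have h1 := hScard e
            have h2 := cnt_grow L i d'
            rw [← hd', ← hρ] at h2
            rw [hd'] at h1 h2
            have h3 := arith (n := n) (q := q) (δ := δ) (u := u) (ρ := ρ) (i := i) (d := d')
              (f := f) (C := C) (S := (S (i + d')).card) (ce := cnt L (2 ^ (i + d')))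
              (ci := cnt L (2 ^ i)) (by omega) h1 h2 (by
                rw [← hq]
                have : r - (u + 1) = q := by omega
                rw [this] at hE
                exact hE) (i + d)
            rw [← hq, ← hN, ← hf] at h3
            rw [hK, hd']
            have hef : i + d - (i + d') = f := by omega
            rw [hef]
            exact h3
    have hcount : ((Finset.Ico i (i + d)).card : ℝ≥0∞) ≤ ((i + d + 1 : ℕ) : ℝ≥0∞) := by
      rw [Nat.card_Ico]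
      exact Nat.cast_le.2 (by omega)
    calc ((bad P (u + 1) i (i + d) r).card : ℝ≥0∞)
        ≤ ((∑ e ∈ Finset.Ico i (i + d), ∑ μ ∈ S e,
          ∑ P' ∈ secs P u e μ, (bad P' u e (i + d) r).card : ℕ) : ℝ≥0∞) := Nat.cast_le.2 hsum
      _ = ∑ e ∈ Finset.Ico i (i + d), ∑ μ ∈ S e,
          ∑ P' ∈ secs P u e μ, ((bad P' u e (i + d) r).card : ℝ≥0∞) := by push_cast; rfl
      _ ≤ ∑ e ∈ Finset.Ico i (i + d), ((C * 6 ^ n * 3 ^ (n * r) * 2 ^ (n + 2) * n *
          (i + d + 1) ^ u * cnt L (2 ^ i) ^ q *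
          2 ^ (d * N) * 2 ^ (i * (n + 1) * (u + 1)) : ℕ) : ℝ≥0∞) * Deg (dimQ P) P :=
          Finset.sum_le_sum hfin
      _ = ((Finset.Ico i (i + d)).card : ℝ≥0∞) * (((C * 6 ^ n * 3 ^ (n * r) * 2 ^ (n + 2) * n *
          (i + d + 1) ^ u * cnt L (2 ^ i) ^ q *
          2 ^ (d * N) * 2 ^ (i * (n + 1) * (u + 1)) : ℕ) : ℝ≥0∞) * Deg (dimQ P) P) := by
          rw [Finset.sum_const, nsmul_eq_mul]
      _ ≤ ((i + d + 1 : ℕ) : ℝ≥0∞) * (((C * 6 ^ n * 3 ^ (n * r) * 2 ^ (n + 2) * n *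
          (i + d + 1) ^ u * cnt L (2 ^ i) ^ q *
          2 ^ (d * N) * 2 ^ (i * (n + 1) * (u + 1)) : ℕ) : ℝ≥0∞) * Deg (dimQ P) P) :=
          mul_le_mul' hcount le_rfl
      _ = _ := by
          rw [← mul_assoc, ← Nat.cast_mul]
          congr 2
          have : r - (u + 1) = q := by omega
          rw [this]
          ring

end Pool.Agent.W282.DZ
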