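import Pool.Agent.W282.DZ.Rec2

/-!
Project DZ: the recursion without logarithms.
-/

open MvPolynomial Filter
open scoped ENNReal

namespace Pool.Agent.W282.DZ

open Pool.Agent.W282.ZP

variable {n : ℕ}

theorem arithB {n q δ u ρ i d f C S ce ci : ℕ} (hρ : ρ ≤ n)
    (h1 : S * ce ≤ (6 * 2 ^ (i + d)) ^ n) (h2 : ce ≤ 3 ^ ρ * 2 ^ (d * ρ) * ci)
    (hE : (n + 1) * (u + 1) + ρ * q + δ + 1 ≤ n * (u + 1 + q)) :
    ((C * ce ^ (q + 1) * 2 ^ (f * (n * (u + 1 + q) - δ)) *
      2 ^ ((i + d) * (n + 1) * u)) * (S * (2 ^ (n + 1) * (n * 2 ^ (i + d + 1))))) * 2 ^ d ≤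
    C * 6 ^ n * 3 ^ (n * (u + 1 + q)) * 2 ^ (n + 2) * n * ci ^ q *
      2 ^ ((d + f) * (n * (u + 1 + q) - δ)) * 2 ^ (i * (n + 1) * (u + 1)) := by
  set r := u + 1 + q with hr
  set N := n * r - δ with hN
  have hE' : (n + 1) * (u + 1) + ρ * q + 1 ≤ N := by omega
  have h3 : ce ^ q ≤ 3 ^ (n * r) * 2 ^ (d * ρ * q) * ci ^ q := by
    calc ce ^ q ≤ (3 ^ ρ * 2 ^ (d * ρ) * ci) ^ q := Nat.pow_le_pow_left h2 q
      _ = 3 ^ (ρ * q) * 2 ^ (d * ρ * q) * ci ^ q := by
          rw [mul_pow, mul_pow, ← pow_mul, ← pow_mul]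
      _ ≤ 3 ^ (n * r) * 2 ^ (d * ρ * q) * ci ^ q := by
          have h4 : ρ * q ≤ n * r := Nat.mul_le_mul hρ (by omega)
          gcongr
          norm_num
  have h5 : 2 ^ ((i + d) * n) * 2 ^ (d * ρ * q) * 2 ^ (f * N) * 2 ^ ((i + d) * (n + 1) * u) *
      2 ^ (i + d) * 2 ^ d ≤ 2 ^ ((d + f) * N) * 2 ^ (i * (n + 1) * (u + 1)) := by
    rw [← pow_add, ← pow_add, ← pow_add, ← pow_add, ← pow_add, ← pow_add]
    refine Nat.pow_le_pow_right (by norm_num) ?_
    have h6 : d * ((n + 1) * (u + 1) + ρ * q + 1) ≤ d * N := Nat.mul_le_mul_left d hE'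
    calc (i + d) * n + d * ρ * q + f * N + (i + d) * (n + 1) * u + (i + d) + d
        = d * ((n + 1) * (u + 1) + ρ * q + 1) + f * N + i * (n + 1) * (u + 1) := by ring
      _ ≤ d * N + f * N + i * (n + 1) * (u + 1) := by omega
      _ = (d + f) * N + i * (n + 1) * (u + 1) := by ring
  calc ((C * ce ^ (q + 1) * 2 ^ (f * N) * 2 ^ ((i + d) * (n + 1) * u)) *
        (S * (2 ^ (n + 1) * (n * 2 ^ (i + d + 1))))) * 2 ^ d
      = C * (S * ce) * ce ^ q * 2 ^ (f * N) * 2 ^ ((i + d) * (n + 1) * u) *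
        (2 ^ (n + 2) * n * 2 ^ (i + d)) * 2 ^ d := by ring
    _ ≤ C * ((6 * 2 ^ (i + d)) ^ n) * (3 ^ (n * r) * 2 ^ (d * ρ * q) * ci ^ q) *
        2 ^ (f * N) * 2 ^ ((i + d) * (n + 1) * u) * (2 ^ (n + 2) * n * 2 ^ (i + d)) * 2 ^ d := by
        gcongr
    _ = (C * 6 ^ n * 3 ^ (n * r) * 2 ^ (n + 2) * n * ci ^ q) *
        (2 ^ ((i + d) * n) * 2 ^ (d * ρ * q) * 2 ^ (f * N) * 2 ^ ((i + d) * (n + 1) * u) *
        2 ^ (i + d) * 2 ^ d) := by
        rw [mul_pow, ← pow_mul]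
        ring
    _ ≤ (C * 6 ^ n * 3 ^ (n * r) * 2 ^ (n + 2) * n * ci ^ q) *
        (2 ^ ((d + f) * N) * 2 ^ (i * (n + 1) * (u + 1))) := Nat.mul_le_mul_left _ h5
    _ = _ := by ring

theorem recursionB (n r δ : ℕ) (hδ : δ ≤ r) (u : ℕ) : ∃ C : ℕ,
    ∀ P : Ideal (MvPolynomial (Fin n) ℂ), P.IsPrime → (∀ j, X j ∉ P) → ∀ i d : ℕ, u + 2 ≤ r →
    (n + 1) * u + Module.finrank ℤ (lat P) * (r - u) + δ + min u 1 ≤ n * r →
    ((bad P u i (i + d) r).card : ℝ≥0∞) ≤
      ((C * (cnt (lat P) (2 ^ i)) ^ (r - u) * 2 ^ (d * (n * r - δ)) *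
        2 ^ (i * (n + 1) * u) : ℕ) : ℝ≥0∞) * Deg (dimQ P) P := by
  classical
  induction u with
  | zero =>
    obtain ⟨C, hC⟩ := recursion n r δ hδ 0
    refine ⟨C, fun P hP hX i d hu hE => ?_⟩
    have h1 := hC P hP hX i d (by omega) (by simpa using hE)
    rw [pow_zero, mul_one] at h1
    exact h1
  | succ u ih =>
    obtain ⟨C, hC⟩ := ih
    refine ⟨2 * (C * 6 ^ n * 3 ^ (n * r) * 2 ^ (n + 2) * n), fun P hP hX i d hu hE => ?_⟩
    set L := lat P with hL
    set ρ := Module.finrank ℤ L with hρ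
    have hρn : ρ + dimQ P ≤ n := rank_add_dim hP hX
    rcases (bad P (u + 1) i (i + d) r).eq_empty_or_nonempty with hemp | hne
    · rw [hemp]
      simp
    obtain ⟨lam0, hlam0⟩ := hne
    obtain ⟨-, Q0, hQ0, -, -, -, hd0, -, -, hrk0⟩ := mem_bad.1 hlam0
    have hn : 0 < n := by omega
    obtain ⟨w, hw⟩ : ∃ w, dimQ P = w + 1 := ⟨dimQ P - 1, by omega⟩
    obtain ⟨q, hq⟩ : ∃ q, r = u + 1 + q := ⟨r - (u + 1), by omega⟩
    have hq1 : 2 ≤ q := by omega
    -- representatives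
    let T : ℕ → Finset (Fin n → ℤ) := fun e =>
      (Fintype.piFinset fun _ => Finset.Ioo (-(2 : ℤ) ^ (e + 1)) (2 ^ (e + 1))).filter
        fun a => a ∉ L
    choose S hST hSinj hSrep using fun e => exists_reps L (T e)
    have hTmem : ∀ e (a : Fin n → ℤ), a ∈ T e ↔ (∀ j, |a j| < (2 : ℤ) ^ (e + 1)) ∧ a ∉ L := by
      intro e a
      simp only [T, Finset.mem_filter, Fintype.mem_piFinset, Finset.mem_Ioo, abs_lt]
    have hS : ∀ e, ∀ a : Fin n → ℤ, (∀ j, |a j| < (2 : ℤ) ^ (e + 1)) → a ∉ L →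
        ∃ μ ∈ S e, a - μ ∈ L := fun e a h1 h2 => hSrep e a ((hTmem e a).2 ⟨h1, h2⟩)
    have hScard : ∀ e, (S e).card * cnt L (2 ^ e) ≤ (6 * 2 ^ e) ^ n := by
      intro e
      refine cls L (2 ^ e) (by positivity) (S e) (fun a ha j => ?_) (hSinj e)
      have h1 := ((hTmem e a).1 (hST e ha)).1 j
      rw [pow_succ] at h1
      push_cast
      linarith
    -- the cover
    have hcov : bad P (u + 1) i (i + d) r ⊆ (Finset.Ico i (i + d)).biUnion fun e =>
        (S e).biUnion fun μ => (secs P u e μ).biUnion fun P' => bad P' u e (i + d) r := by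
      intro lam hlam
      obtain ⟨e, he, μ, hμ, P', hP', hl⟩ := cover hP hS hlam
      exact Finset.mem_biUnion.2 ⟨e, he, Finset.mem_biUnion.2 ⟨μ, hμ,
        Finset.mem_biUnion.2 ⟨P', hP', hl⟩⟩⟩
    have hsum : (bad P (u + 1) i (i + d) r).card ≤ ∑ e ∈ Finset.Ico i (i + d), ∑ μ ∈ S e,
        ∑ P' ∈ secs P u e μ, (bad P' u e (i + d) r).card := by
      refine (Finset.card_le_card hcov).trans (Finset.card_biUnion_le.trans ?_)
      refine Finset.sum_le_sum fun e _ => Finset.card_biUnion_le.trans ?_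
      exact Finset.sum_le_sum fun μ _ => Finset.card_biUnion_le
    -- one section
    set N := n * r - δ with hN
    have hone : ∀ e ∈ Finset.Ico i (i + d), ∀ μ ∈ S e, ∀ P' ∈ secs P u e μ,
        ((bad P' u e (i + d) r).card : ℝ≥0∞) ≤
        ((C * (cnt L (2 ^ e)) ^ (q + 1) * 2 ^ ((i + d - e) * N) *
          2 ^ (e * (n + 1) * u) : ℕ) : ℝ≥0∞) * Deg w P' := by
      intro e he μ hμ P' hP'
      obtain ⟨hP'm, hX', hd', hsm, hrk⟩ := mem_secs.1 hP'
      have hprime : P'.IsPrime := hP'm.1.1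
      have hw' : dimQ P' = w := by omega
      rw [Finset.mem_Ico] at he
      obtain ⟨f, hf⟩ : ∃ f, i + d = e + f := ⟨i + d - e, by omega⟩
      have hE' : (n + 1) * u + Module.finrank ℤ (lat P') * (r - u) + δ + min u 1 ≤ n * r := by
        obtain ⟨l, hl⟩ : ∃ l, n = Module.finrank ℤ (lat P') + u + 1 + l :=
          ⟨n - (Module.finrank ℤ (lat P') + u + 1), by omega⟩
        obtain ⟨k, hk⟩ : ∃ k, q = k + 1 := ⟨q - 1, by omega⟩
        have hru : r - u = k + 2 := by omega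
        have hr : r = u + 2 + k := by omega
        rw [hru]
        generalize Module.finrank ℤ (lat P') = ρ' at hl
        rw [hl, hr]
        have hδ' : δ ≤ u + 2 + k := by omega
        have hk1 : 1 ≤ k := by omega
        have huk : min u 1 ≤ u * k := by
          rcases Nat.eq_zero_or_pos u with h | h
          · rw [h]; simp
          · exact (min_le_left u 1).trans (Nat.le_mul_of_pos_right u hk1)
        nlinarith [Nat.zero_le (u * k), Nat.zero_le (l * k), Nat.zero_le l]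
      have h1 := hC P' hprime hX' e f (by omega) hE'
      rw [hw'] at h1
      have hcm : cnt (lat P') (2 ^ e) ≤ cnt L (2 ^ e) := by
        refine cnt_mono fun a ha hae => hsm a ha fun j => ?_
        have := hae j
        push_cast at this
        exact this
      have hrq : r - u = q + 1 := by omega
      rw [hrq] at h1
      rw [hf]
      have hef : e + f - e = f := by omega
      rw [hef]
      refine h1.trans ?_
      refine mul_le_mul' ?_ le_rfl
      refine Nat.cast_le.2 ?_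
      gcongr
    -- sum over the sections
    have hbez : ∀ e ∈ Finset.Ico i (i + d), ∀ μ ∈ S e, ∑ P' ∈ secs P u e μ, Deg w P' ≤
        ((2 ^ (n + 1) * (n * 2 ^ (e + 1)) : ℕ) : ℝ≥0∞) * Deg (dimQ P) P := by
      intro e he μ hμ
      have hμT := (hTmem e μ).1 (hST e hμ)
      have hbin : bin μ ∉ P := fun h => hμT.2 (Submodule.subset_span h)
      have hdeg : (bin μ).totalDegree ≤ n * 2 ^ (e + 1) := by
        refine totalDegree_bin fun j => ?_
        push_cast
        exact hμT.1 j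
      have hM : 1 ≤ n * 2 ^ (e + 1) := Nat.one_le_iff_ne_zero.2 (by positivity)
      have h1 := Pool.Agent.W125.DZ.bez Pool.Agent.W563.DZ.mul Pool.Agent.W563.DZ.sum n w
        (n * 2 ^ (e + 1)) P (bin μ) (secs P u e μ) hP hbin hdeg hM
        (fun Q hQ => by
          obtain ⟨hQm, -⟩ := mem_secs.1 hQ
          exact ⟨hQm.1.1, le_sup_left.trans hQm.1.2,
            hQm.1.2 (Ideal.mem_sup_right (Ideal.mem_span_singleton_self _))⟩)
        (fun Q hQ Q' hQ' hle => by
          obtain ⟨hQm, -⟩ := mem_secs.1 hQ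
          obtain ⟨hQm', -⟩ := mem_secs.1 hQ'
          exact le_antisymm hle (hQm'.2 hQm.1 hle))
      rw [← hw] at h1
      refine h1.trans ?_
      have h2 : (2 : ℝ≥0∞) ^ (w + 2) * ((n * 2 ^ (e + 1) : ℕ) : ℝ≥0∞) =
          ((2 ^ (w + 2) * (n * 2 ^ (e + 1)) : ℕ) : ℝ≥0∞) := by push_cast; ring
      rw [h2]
      refine mul_le_mul' ?_ le_rfl
      refine Nat.cast_le.2 (Nat.mul_le_mul_right _ (Nat.pow_le_pow_right (by norm_num) ?_))
      omega
    -- assemble
    set Y : ℕ := C * 6 ^ n * 3 ^ (n * r) * 2 ^ (n + 2) * n * cnt L (2 ^ i) ^ q *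
      2 ^ (d * N) * 2 ^ (i * (n + 1) * (u + 1)) with hY
    have hfin : ∀ e ∈ Finset.Ico i (i + d), (∑ μ ∈ S e, ∑ P' ∈ secs P u e μ,
        ((bad P' u e (i + d) r).card : ℝ≥0∞)) ≤
        ((Y / 2 ^ (e - i) : ℕ) : ℝ≥0∞) * Deg (dimQ P) P := by
      intro e he
      have he' := Finset.mem_Ico.1 he
      set K : ℕ := C * (cnt L (2 ^ e)) ^ (q + 1) * 2 ^ ((i + d - e) * N) *
          2 ^ (e * (n + 1) * u) with hK
      calc (∑ μ ∈ S e, ∑ P' ∈ secs P u e μ, ((bad P' u e (i + d) r).card : ℝ≥0∞))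
          ≤ ∑ μ ∈ S e, ∑ P' ∈ secs P u e μ, (K : ℝ≥0∞) * Deg w P' :=
            Finset.sum_le_sum fun μ hμ => Finset.sum_le_sum fun P' hP' => hone e he μ hμ P' hP'
        _ = ∑ μ ∈ S e, (K : ℝ≥0∞) * ∑ P' ∈ secs P u e μ, Deg w P' :=
            Finset.sum_congr rfl fun μ _ => (Finset.mul_sum _ _ _).symm
        _ ≤ ∑ μ ∈ S e, (K : ℝ≥0∞) *
            (((2 ^ (n + 1) * (n * 2 ^ (e + 1)) : ℕ) : ℝ≥0∞) * Deg (dimQ P) P) :=
            Finset.sum_le_sum fun μ hμ => mul_le_mul' le_rfl (hbez e he μ hμ)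
        _ = ((K * ((S e).card * (2 ^ (n + 1) * (n * 2 ^ (e + 1)))) : ℕ) : ℝ≥0∞) *
            Deg (dimQ P) P := by
            rw [Finset.sum_const, nsmul_eq_mul]
            push_cast
            ring
        _ ≤ _ := by
            refine mul_le_mul' (Nat.cast_le.2 ?_) le_rfl
            obtain ⟨d', hd'⟩ : ∃ d', e = i + d' := ⟨e - i, by omega⟩
            obtain ⟨f, hf⟩ : ∃ f, d = d' + f := ⟨d - d', by omega⟩
            have h1 := hScard e
            have h2 := cnt_grow L i d'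
            rw [← hd', ← hρ] at h2
            rw [hd'] at h1 h2
            have h3 := arithB (n := n) (q := q) (δ := δ) (u := u) (ρ := ρ) (i := i) (d := d')
              (f := f) (C := C) (S := (S (i + d')).card) (ce := cnt L (2 ^ (i + d')))
              (ci := cnt L (2 ^ i)) (by omega) h1 h2 (by
                rw [← hq]
                have : r - (u + 1) = q := by omega
                rw [this] at hE
                have h7 : min (u + 1) 1 = 1 := by omega
                rw [h7] at hE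
                exact hE)
            rw [← hq, ← hN, ← hf] at h3
            rw [hK, hd']
            have hef : i + d - (i + d') = f := by omega
            have hei : i + d' - i = d' := by omega
            rw [hef, hei, Nat.le_div_iff_mul_le (by positivity)]
            exact h3
    have hgeo : ∑ e ∈ Finset.Ico i (i + d), Y / 2 ^ (e - i) ≤ 2 * Y := by
      rw [Finset.sum_Ico_eq_sum_range]
      have h1 : i + d - i = d := by omega
      rw [h1]
      have h2 : ∀ k ∈ Finset.range d, Y / 2 ^ (i + k - i) = Y / 2 ^ k := by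
        intro k _
        rw [Nat.add_sub_cancel_left]
      rw [Finset.sum_congr rfl h2]
      refine (Nat.geom_sum_le (le_refl 2) Y d).trans ?_
      omega
    calc ((bad P (u + 1) i (i + d) r).card : ℝ≥0∞)
        ≤ ((∑ e ∈ Finset.Ico i (i + d), ∑ μ ∈ S e,
          ∑ P' ∈ secs P u e μ, (bad P' u e (i + d) r).card : ℕ) : ℝ≥0∞) := Nat.cast_le.2 hsum
      _ = ∑ e ∈ Finset.Ico i (i + d), ∑ μ ∈ S e,
          ∑ P' ∈ secs P u e μ, ((bad P' u e (i + d) r).card : ℝ≥0∞) := by push_cast; rfl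
      _ ≤ ∑ e ∈ Finset.Ico i (i + d), ((Y / 2 ^ (e - i) : ℕ) : ℝ≥0∞) * Deg (dimQ P) P :=
          Finset.sum_le_sum hfin
      _ = ((∑ e ∈ Finset.Ico i (i + d), Y / 2 ^ (e - i) : ℕ) : ℝ≥0∞) * Deg (dimQ P) P := by
          rw [← Finset.sum_mul, Nat.cast_sum]
      _ ≤ ((2 * Y : ℕ) : ℝ≥0∞) * Deg (dimQ P) P :=
          mul_le_mul' (Nat.cast_le.2 hgeo) le_rfl
      _ = _ := by
          congr 2
          rw [hY]
          have : r - (u + 1) = q := by omega
          rw [this]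
          ring

end Pool.Agent.W282.DZ
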