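import Pool.Agent.W282.DZ.Lat
import Pool.Agent.W613.DZ.GROW
import Pool.Agent.W338.DZ.DIM
import Pool.Agent.W405.DZ.Low
import Pool.Agent.W563.DZ.MulSum
import Pool.Agent.W125.DZ.AVG

/-!
Project DZ: one hypersurface section, the gap of a prime ideal, classes of exponent vectors.
-/

open MvPolynomial Filter
open scoped ENNReal

namespace Pool.Agent.W282.DZ

open Pool.Agent.W282.ZP

variable {n : ℕ}

theorem eq_of_dim {P Q : Ideal (MvPolynomial (Fin n) ℂ)} (hP : P.IsPrime) (hQ : Q.IsPrime)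
    (hPQ : P ≤ Q) (h : dimQ P ≤ dimQ Q) : P = Q := by
  by_contra hne
  exact absurd (dim_lt hP hQ (lt_of_le_of_ne hPQ hne)) (not_lt.2 h)

/-- One hypersurface section. -/
theorem exists_section {P Q : Ideal (MvPolynomial (Fin n) ℂ)} (hP : P.IsPrime) (hQ : Q.IsPrime)
    (hPQ : P ≤ Q) (hX : ∀ j, X j ∉ Q) {μ : Fin n → ℤ} (hμ : μ ∈ lat Q) (hμP : μ ∉ lat P) :
    ∃ P' ∈ (P ⊔ Ideal.span {bin μ}).minimalPrimes, P' ≤ Q ∧ dimQ P' + 1 = dimQ P := by
  have hle : P ⊔ Ideal.span {bin μ} ≤ Q := by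
    refine sup_le hPQ ?_
    rw [Ideal.span_singleton_le_iff_mem]
    exact (mem_lat hQ hX μ).1 hμ
  obtain ⟨P', hP', hP'Q⟩ := Ideal.exists_minimalPrimes_le hle
  have hbin : bin μ ∉ P := fun h => hμP (Submodule.subset_span h)
  have hprime : P'.IsPrime := hP'.1.1
  have hPP' : P ≤ P' := le_sup_left.trans hP'.1.2
  have hmem : bin μ ∈ P' := hP'.1.2 (Ideal.mem_sup_right (Ideal.mem_span_singleton_self _))
  refine ⟨P', hP', hP'Q, le_antisymm ?_ ?_⟩
  · refine Nat.succ_le_of_lt (dim_lt hP hprime (lt_of_le_of_ne hPP' ?_))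
    rintro rfl
    exact hbin hmem
  · exact Pool.Agent.W338.DZ.dim n P P' (bin μ) hP hbin hP'

theorem finrank_succ {L L' : Submodule ℤ (Fin n → ℤ)} (h : L ≤ L') {μ : Fin n → ℤ} (hμ : μ ∈ L')
    (hk : ∀ k : ℤ, k ≠ 0 → k • μ ∉ L) : Module.finrank ℤ L + 1 ≤ Module.finrank ℤ L' := by
  let ψ : (L × ℤ) →ₗ[ℤ] L' := (Submodule.inclusion h).coprod
    (LinearMap.toSpanSingleton ℤ L' ⟨μ, hμ⟩)
  have hψ : ∀ a k, ((ψ (a, k) : L') : Fin n → ℤ) = (a : Fin n → ℤ) + k • μ := by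
    intro a k
    simp [ψ]
  have hinj : Function.Injective ψ := by
    rw [injective_iff_map_eq_zero]
    rintro ⟨a, k⟩ hak
    have h1 : (a : Fin n → ℤ) + k • μ = 0 := by rw [← hψ, hak]; rfl
    have h2 : k = 0 := by
      by_contra hk0
      apply hk k hk0
      have h3 : k • μ = -(a : Fin n → ℤ) := by
        rw [eq_neg_iff_add_eq_zero, add_comm]
        exact h1
      rw [h3]
      exact L.neg_mem a.2
    subst h2
    rw [zero_smul, add_zero] at h1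
    exact Prod.ext (Subtype.ext h1) rfl
  have h3 := LinearMap.finrank_le_finrank_of_injective hinj
  rwa [Module.finrank_prod, Module.finrank_self] at h3

/-- minimality of `Q` with respect to the characters of size less than `2 ^ b` -/
def MinOver (P : Ideal (MvPolynomial (Fin n) ℂ)) (b : ℕ) (Q : Ideal (MvPolynomial (Fin n) ℂ)) :
    Prop :=
  ∀ Q' : Ideal (MvPolynomial (Fin n) ℂ), Q'.IsPrime → P ≤ Q' → Q' ≤ Q →
    (∀ a ∈ lat Q, (∀ j, |a j| < (2 : ℤ) ^ b) → a ∈ lat Q') → Q' = Q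

theorem MinOver.mono {P P' Q : Ideal (MvPolynomial (Fin n) ℂ)} {b : ℕ} (h : MinOver P b Q)
    (hPP' : P ≤ P') : MinOver P' b Q :=
  fun Q' h1 h2 h3 h4 => h Q' h1 (hPP'.trans h2) h3 h4

theorem exists_mu {P Q : Ideal (MvPolynomial (Fin n) ℂ)} {b : ℕ} (hP : P.IsPrime)
    (hPQ : P ≤ Q) (hmin : MinOver P b Q) (hne : P ≠ Q) :
    ∃ μ ∈ lat Q, (∀ j, |μ j| < (2 : ℤ) ^ b) ∧ μ ∉ lat P := by
  by_contra hcon
  push Not at hcon
  exact hne (hmin P hP le_rfl hPQ hcon)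

/-- The gap does not increase. -/
theorem gap (b u : ℕ) : ∀ P Q : Ideal (MvPolynomial (Fin n) ℂ), P.IsPrime → Q.IsPrime → P ≤ Q →
    (∀ j, X j ∉ Q) → dimQ Q + u = dimQ P → MinOver P b Q →
    Module.finrank ℤ (lat P) + dimQ P ≤ Module.finrank ℤ (lat Q) + dimQ Q := by
  induction u with
  | zero =>
    intro P Q hP hQ hPQ hX hd hmin
    rw [eq_of_dim hP hQ hPQ (by omega)]
  | succ u ih =>
    intro P Q hP hQ hPQ hX hd hmin
    have hne : P ≠ Q := by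
      rintro rfl
      omega
    obtain ⟨μ, hμQ, -, hμP⟩ := exists_mu hP hPQ hmin hne
    obtain ⟨P', hP', hP'Q, hd'⟩ := exists_section hP hQ hPQ hX hμQ hμP
    have hprime : P'.IsPrime := hP'.1.1
    have hPP' : P ≤ P' := le_sup_left.trans hP'.1.2
    have hX' : ∀ j, X j ∉ P' := fun j h => hX j (hP'Q h)
    have hmem : bin μ ∈ P' := hP'.1.2 (Ideal.mem_sup_right (Ideal.mem_span_singleton_self _))
    have hμ' : μ ∈ lat P' := Submodule.subset_span hmem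
    have h1 : Module.finrank ℤ (lat P) + 1 ≤ Module.finrank ℤ (lat P') :=
      finrank_succ (lat_mono hPP') hμ' fun k hk hkμ =>
        hμP (lat_torsion hP hprime hPP' hX' hk hμ' hkμ)
    have h2 := ih P' Q hprime hQ hP'Q hX (by omega) (hmin.mono hPP')
    omega

theorem cnt_finite (L : Submodule ℤ (Fin n → ℤ)) (M : ℕ) :
    {a : Fin n → ℤ | a ∈ L ∧ ∀ j, |a j| < (M : ℤ)}.Finite :=
  Pool.Agent.W613.DZ.fin_box L M

theorem cnt_mono {L L' : Submodule ℤ (Fin n → ℤ)} {M : ℕ}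
    (h : ∀ a ∈ L, (∀ j, |a j| < (M : ℤ)) → a ∈ L') : cnt L M ≤ cnt L' M :=
  Set.ncard_le_ncard (fun a ha => ⟨h a ha.1 ha.2, ha.2⟩) (cnt_finite L' M)

theorem cnt_one (L : Submodule ℤ (Fin n → ℤ)) : cnt L 1 = 1 := by
  rw [cnt, Set.ncard_eq_one]
  refine ⟨0, ?_⟩
  ext a
  constructor
  · rintro ⟨-, ha⟩
    funext j
    have h1 := ha j
    have h2 := abs_nonneg (a j)
    have h3 : |a j| = 0 := by
      rw [Nat.cast_one] at h1
      omega
    exact abs_eq_zero.1 h3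
  · rintro rfl
    exact ⟨L.zero_mem, fun j => by simp⟩

/-- Number of classes. -/
theorem cls (L : Submodule ℤ (Fin n → ℤ)) (M : ℕ) (hM : 0 < M) (s : Finset (Fin n → ℤ))
    (hs : ∀ a ∈ s, ∀ j, |a j| < (2 * M : ℤ)) (hinj : ∀ a ∈ s, ∀ b ∈ s, a - b ∈ L → a = b) :
    s.card * cnt L M ≤ (6 * M) ^ n := by
  classical
  set t : Finset (Fin n → ℤ) := (cnt_finite L M).toFinset with ht
  have htc : t.card = cnt L M := by
    rw [cnt, Set.ncard_eq_toFinset_card _ (cnt_finite L M)]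
  let u : Finset (Fin n → ℤ) := Fintype.piFinset fun _ => Finset.Ioo (-(3 * M : ℤ)) (3 * M)
  have huc : u.card ≤ (6 * M) ^ n := by
    rw [Fintype.card_piFinset]
    simp only [Int.card_Ioo, Finset.prod_const, Finset.card_univ, Fintype.card_fin]
    refine Nat.pow_le_pow_left ?_ n
    omega
  rw [← htc, ← Finset.card_product]
  refine le_trans (Finset.card_le_card_of_injOn (fun p => p.1 + p.2) ?_ ?_) huc
  · rintro ⟨a, x⟩ hax
    obtain ⟨ha, hx⟩ := Finset.mem_product.1 (Finset.mem_coe.1 hax)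
    have hx' : x ∈ L ∧ ∀ j, |x j| < (M : ℤ) := (Set.Finite.mem_toFinset (cnt_finite L M)).1 hx
    refine Finset.mem_coe.2 (Fintype.mem_piFinset.2 fun j => ?_)
    have h1 := abs_lt.1 (hs a ha j)
    have h2 := abs_lt.1 (hx'.2 j)
    rw [Finset.mem_Ioo]
    change -(3 * (M : ℤ)) < a j + x j ∧ a j + x j < 3 * M
    constructor <;> omega
  · rintro ⟨a, x⟩ hax ⟨a', x'⟩ hax' h
    obtain ⟨ha, hx⟩ := Finset.mem_product.1 (Finset.mem_coe.1 hax)
    obtain ⟨ha', hx'⟩ := Finset.mem_product.1 (Finset.mem_coe.1 hax')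
    have hx1 : x ∈ L ∧ ∀ j, |x j| < (M : ℤ) := (Set.Finite.mem_toFinset (cnt_finite L M)).1 hx
    have hx2 : x' ∈ L ∧ ∀ j, |x' j| < (M : ℤ) := (Set.Finite.mem_toFinset (cnt_finite L M)).1 hx'
    have h0 : a + x = a' + x' := h
    have h1 : a - a' = x' - x := by
      rw [sub_eq_sub_iff_add_eq_add, h0, add_comm]
    have h2 : a = a' := by
      apply hinj a ha a' ha'
      rw [h1]
      exact L.sub_mem hx2.1 hx1.1
    subst h2
    rw [add_right_inj] at h0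
    rw [h0]

/-- Representatives modulo `L` of a finite set. -/
theorem exists_reps (L : Submodule ℤ (Fin n → ℤ)) (T : Finset (Fin n → ℤ)) :
    ∃ s ⊆ T, (∀ a ∈ s, ∀ b ∈ s, a - b ∈ L → a = b) ∧ ∀ a ∈ T, ∃ b ∈ s, a - b ∈ L := by
  classical
  have h0 : Set.SurjOn (Submodule.Quotient.mk (p := L)) (T : Set (Fin n → ℤ))
      (Submodule.Quotient.mk (p := L) '' (T : Set (Fin n → ℤ))) := Set.surjOn_image _ _
  obtain ⟨s, hsT, hs⟩ := h0.exists_bijOn_subset
  have hfin : s.Finite := T.finite_toSet.subset hsT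
  refine ⟨hfin.toFinset, fun a ha => ?_, fun a ha b hb hab => ?_, fun a ha => ?_⟩
  · exact Finset.mem_coe.1 (hsT (hfin.mem_toFinset.1 ha))
  · refine hs.injOn (hfin.mem_toFinset.1 ha) (hfin.mem_toFinset.1 hb) ?_
    exact (Submodule.Quotient.eq L).2 hab
  · obtain ⟨b, hb, hab⟩ := hs.surjOn (Set.mem_image_of_mem _ (Finset.mem_coe.2 ha))
    exact ⟨b, hfin.mem_toFinset.2 hb, (Submodule.Quotient.eq L).1 hab.symm⟩

/-- Lower bound for the degree. -/
theorem one_le_deg {P : Ideal (MvPolynomial (Fin n) ℂ)} (hP : P.IsPrime) (hd : dimQ P ≤ n) :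
    1 ≤ ((n ^ n : ℕ) : ℝ≥0∞) * Deg (dimQ P) P := by
  set w := dimQ P with hw
  have hwn : w ^ w ≤ n ^ n := by
    rcases Nat.eq_zero_or_pos w with h | h
    · rw [h, pow_zero]
      rcases Nat.eq_zero_or_pos n with h' | h'
      · rw [h', pow_zero]
      · exact Nat.one_le_pow _ _ h'
    · exact (Nat.pow_le_pow_left hd w).trans (Nat.pow_le_pow_right (h.trans_le hd) hd)
  have hw0 : ((w ^ w : ℕ) : ℝ≥0∞) ≠ 0 := by
    rw [Nat.cast_ne_zero]
    rcases Nat.eq_zero_or_pos w with h | h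
    · rw [h]; decide
    · exact (pow_pos h w).ne'
  have h1 : ((w ^ w : ℕ) : ℝ≥0∞)⁻¹ ≤ Deg w P := by
    rw [Deg]
    refine Filter.le_liminf_of_le (by isBoundedDefault) ?_
    filter_upwards [Filter.eventually_ge_atTop 1] with K hK
    have h2 := Pool.Agent.W405.DZ.low n P hP K
    rw [← hw] at h2
    have h3 : (K : ℝ≥0∞) ^ w ≤ ((w ^ w : ℕ) : ℝ≥0∞) * (hil P K : ℝ≥0∞) := by exact_mod_cast h2
    have hK0 : (K : ℝ≥0∞) ^ w ≠ 0 := by
      apply pow_ne_zero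
      rw [Nat.cast_ne_zero]
      omega
    have hKt : (K : ℝ≥0∞) ^ w ≠ ⊤ := ENNReal.pow_ne_top (ENNReal.natCast_ne_top K)
    rw [ENNReal.le_div_iff_mul_le (Or.inl hK0) (Or.inl hKt)]
    rw [ENNReal.inv_mul_le_iff hw0 (ENNReal.natCast_ne_top _)]
    exact h3
  calc (1 : ℝ≥0∞) = ((w ^ w : ℕ) : ℝ≥0∞) * ((w ^ w : ℕ) : ℝ≥0∞)⁻¹ :=
        (ENNReal.mul_inv_cancel hw0 (ENNReal.natCast_ne_top _)).symm
    _ ≤ ((n ^ n : ℕ) : ℝ≥0∞) * Deg w P := mul_le_mul' (by exact_mod_cast hwn) h1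

end Pool.Agent.W282.DZ
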