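import Pool.Agent.W282.DZ.Rec2
import Pool.Agent.W282.DZ.RecB
import Pool.Agent.W335.DZ.UP

/-!
Project DZ: from the recursion to tuples of exponent vectors.
-/

open MvPolynomial Filter
open scoped ENNReal

namespace Pool.Agent.W282.DZ

open Pool.Agent.W282.ZP

variable {n : ℕ}

theorem deg_lt_top {P : Ideal (MvPolynomial (Fin n) ℂ)} (hP : P.IsPrime) :
    ∃ D : ℕ, Deg (dimQ P) P ≤ (D : ℝ≥0∞) := by
  obtain ⟨C, hC⟩ := Pool.Agent.W335.DZ.up n P hP
  refine ⟨C * 2 ^ dimQ P, ?_⟩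
  rw [Deg]
  refine Filter.liminf_le_of_frequently_le' (Filter.Eventually.frequently ?_)
  filter_upwards [Filter.eventually_ge_atTop 1] with K hK
  have hK0 : (K : ℝ≥0∞) ^ dimQ P ≠ 0 := by
    apply pow_ne_zero
    rw [Nat.cast_ne_zero]
    omega
  have hKt : (K : ℝ≥0∞) ^ dimQ P ≠ ⊤ := ENNReal.pow_ne_top (ENNReal.natCast_ne_top K)
  rw [ENNReal.div_le_iff hK0 hKt]
  have h1 : hil P K ≤ C * 2 ^ dimQ P * K ^ dimQ P := by
    refine (hC K).trans ?_
    rw [mul_assoc, ← mul_pow]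
    gcongr
    omega
  exact_mod_cast h1

theorem idealOf_anti {A V : Set (Fin n → ℂ)} (h : A ⊆ V) : idealOf V ≤ idealOf A := by
  intro f hf
  rw [mem_idealOf] at hf ⊢
  exact fun x hx => hf x (h hx)

theorem X_notMem {A : Set (Fin n → ℂ)} (hA : (idealOf A).IsPrime) (h0 : ∀ x ∈ A, ∀ j, x j ≠ 0)
    (j : Fin n) : X j ∉ idealOf A := by
  obtain ⟨x, hx⟩ := nonempty_of_prime hA
  intro h
  have h1 := mem_idealOf.1 h x hx
  rw [eval_X] at h1
  exact h0 x hx j h1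

/-- A set whose ideal contains the ideal of a torsion point. -/
theorem torsion_point {A : Set (Fin n → ℂ)} (hA : (idealOf A).IsPrime)
    (h0 : ∀ x ∈ A, ∀ j, x j ≠ 0)
    (hrk : Module.finrank ℤ (lat (idealOf A)) = n) :
    ∃ ζ : Fin n → ℂ, A = {ζ} ∧ ∀ j, ∃ k : ℕ, 0 < k ∧ ζ j ^ k = 1 := by
  have hX := X_notMem hA h0
  have hk : ∀ j : Fin n, ∃ k : ℕ, 0 < k ∧ ∀ x ∈ A, x j ^ k = 1 := by
    intro j
    have h1 : ∃ k : ℤ, k ≠ 0 ∧ k • (Pi.single j (1 : ℤ) : Fin n → ℤ) ∈ lat (idealOf A) := by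
      by_contra hcon
      push Not at hcon
      have h2 := finrank_succ (L := lat (idealOf A)) (L' := ⊤) le_top
        (μ := (Pi.single j (1 : ℤ) : Fin n → ℤ)) Submodule.mem_top hcon
      rw [finrank_top, Module.finrank_fintype_fun_eq_card, Fintype.card_fin] at h2
      omega
    obtain ⟨k, hk0, hk⟩ := h1
    refine ⟨k.natAbs, Int.natAbs_pos.2 hk0, fun x hx => ?_⟩
    rw [mem_lat hA hX, mem_idealOf] at hk
    have h3 := (eval_bin x (h0 x hx) _).1 (hk x hx)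
    have h4 : x j ^ k = 1 := by
      rw [Finset.prod_eq_single j] at h3
      · simpa using h3
      · intro i _ hij
        rw [Pi.smul_apply, Pi.single_eq_of_ne hij, smul_zero, zpow_zero]
      · intro h
        exact absurd (Finset.mem_univ _) h
    rcases Int.natAbs_eq k with h | h
    · rw [h, zpow_natCast] at h4
      exact h4
    · rw [h, zpow_neg, zpow_natCast, inv_eq_one] at h4
      exact h4
  -- every coordinate is constant
  have hc : ∀ j : Fin n, ∃ c : ℂ, ∀ x ∈ A, x j = c := by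
    intro j
    obtain ⟨k, hk0, hk⟩ := hk j
    have h1 : (X j ^ k - 1 : MvPolynomial (Fin n) ℂ) ∈ idealOf A := by
      rw [mem_idealOf]
      intro x hx
      rw [map_sub, map_pow, eval_X, map_one, hk x hx, sub_self]
    have h2 : (X j ^ k - 1 : MvPolynomial (Fin n) ℂ) =
        ∏ ζ ∈ Polynomial.nthRootsFinset k (1 : ℂ), (X j - C ζ) := by
      have hprim := Complex.isPrimitiveRoot_exp k hk0.ne'
      have h3 := Polynomial.X_pow_sub_one_eq_prod hk0 hprim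
      have h4 := congrArg (Polynomial.eval₂ (C : ℂ →+* MvPolynomial (Fin n) ℂ) (X j)) h3
      rw [Polynomial.eval₂_finsetProd] at h4
      simpa using h4
    rw [h2] at h1
    obtain ⟨ζ, -, hζ⟩ := (hA.prod_mem_iff).1 h1
    refine ⟨ζ, fun x hx => ?_⟩
    have h5 := mem_idealOf.1 hζ x hx
    rw [map_sub, eval_X, eval_C, sub_eq_zero] at h5
    exact h5
  choose c hc using hc
  obtain ⟨x, hx⟩ := nonempty_of_prime hA
  have hxc : x = c := funext fun j => hc j x hx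
  refine ⟨c, ?_, fun j => ?_⟩
  · ext y
    constructor
    · intro hy
      exact Set.mem_singleton_iff.2 (funext fun j => hc j y hy)
    · intro hy
      rw [Set.mem_singleton_iff] at hy
      rw [hy, ← hxc]
      exact hx
  · obtain ⟨k, hk0, hk⟩ := hk j
    refine ⟨k, hk0, ?_⟩
    rw [← hc j x hx]
    exact hk x hx

/-- A bad subset of `V` gives a bad component. -/
theorem exists_wit {V A : Set (Fin n → ℂ)} (hV : (idealOf V).IsPrime)
    (h0 : ∀ x ∈ V, ∀ j, x j ≠ 0) (hAV : A ⊆ V) (hA : (idealOf A).IsPrime) {r b : ℕ}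
    {lam : Fin r → Fin n → ℤ} (hb : ∀ t j, |lam t j| < (2 : ℤ) ^ b)
    (hrel : ∀ x ∈ A, ∀ t, ∏ j, x j ^ lam t j = 1)
    (hdim : dimQ (idealOf V) < dimQ (idealOf A) + r)
    (hnt : ¬ ∃ ζ : Fin n → ℂ, A = {ζ} ∧ ∀ j, ∃ k : ℕ, 0 < k ∧ ζ j ^ k = 1) :
    ∃ u < r, u ≤ dimQ (idealOf V) ∧ lam ∈ bad (idealOf V) u 0 (0 + b) r ∧
      (Module.finrank ℤ (lat (idealOf V)) + dimQ (idealOf V) < n ∨ u < dimQ (idealOf V)) := by
  have h0A : ∀ x ∈ A, ∀ j, x j ≠ 0 := fun x hx => h0 x (hAV hx)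
  have hXA := X_notMem hA h0A
  have hle : idealOf V ⊔ Ideal.span (Set.range fun t => bin (lam t)) ≤ idealOf A := by
    refine sup_le (idealOf_anti hAV) ?_
    rw [Ideal.span_le]
    rintro _ ⟨t, rfl⟩
    refine mem_idealOf.2 fun x hx => ?_
    exact (eval_bin x (h0A x hx) _).2 (hrel x hx t)
  obtain ⟨Q, hQm, hQA⟩ := Ideal.exists_minimalPrimes_le hle
  have hQ : Q.IsPrime := hQm.1.1
  have hVQ : idealOf V ≤ Q := le_sup_left.trans hQm.1.2
  have hXQ : ∀ j, X j ∉ Q := fun j h => hXA j (hQA h)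
  have hlamQ : ∀ t, lam t ∈ lat Q := fun t => Submodule.subset_span
    (hQm.1.2 (Ideal.mem_sup_right (Ideal.subset_span ⟨t, rfl⟩)))
  have hd1 : dimQ (idealOf A) ≤ dimQ Q := by
    rcases hQA.eq_or_lt with h | h
    · rw [h]
    · exact (dim_lt hQ hA h).le
  have hd2 : dimQ Q ≤ dimQ (idealOf V) := by
    rcases hVQ.eq_or_lt with h | h
    · rw [h]
    · exact (dim_lt hV hQ h).le
  have hmin : MinOver (idealOf V) b Q := by
    intro Q' hQ' hVQ' hQ'Q hsm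
    have hXQ' : ∀ j, X j ∉ Q' := fun j h => hXQ j (hQ'Q h)
    have h1 : idealOf V ⊔ Ideal.span (Set.range fun t => bin (lam t)) ≤ Q' := by
      refine sup_le hVQ' ?_
      rw [Ideal.span_le]
      rintro _ ⟨t, rfl⟩
      exact (mem_lat hQ' hXQ' _).1 (hsm _ (hlamQ t) (hb t))
    exact le_antisymm hQ'Q (hQm.2 ⟨hQ', h1⟩ hQ'Q)
  have hrk : Module.finrank ℤ (lat Q) < n := by
    by_contra hcon
    have h1 := rank_add_dim hQ hXQ
    have h2 : dimQ Q = 0 := by omega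
    have h3 : Q = idealOf A := eq_of_dim hQ hA hQA (by omega)
    apply hnt
    refine torsion_point hA h0A ?_
    rw [← h3]
    omega
  have hu : dimQ Q + (dimQ (idealOf V) - dimQ Q) = dimQ (idealOf V) := by omega
  refine ⟨dimQ (idealOf V) - dimQ Q, by omega, by omega, ?_, ?_⟩
  · rw [Nat.zero_add]
    refine mem_bad.2 ⟨hb, Q, hQ, hVQ, hXQ, hlamQ, hu, ?_, hmin, hrk⟩
    intro a ha hsm
    have h3 : a = 0 := by
      funext j
      have h1 := hsm j
      rw [pow_zero] at h1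
      have h2 := abs_nonneg (a j)
      exact abs_eq_zero.1 (by omega)
    rw [h3]
    exact (lat (idealOf V)).zero_mem
  · have hg := gap b _ (idealOf V) Q hV hQ hVQ hXQ hu hmin
    have hgV := rank_add_dim hV (X_notMem hV h0)
    by_cases h : Module.finrank ℤ (lat (idealOf V)) + dimQ (idealOf V) < n
    · exact Or.inl h
    · right
      omega

theorem typical_of_notMem {V : Set (Fin n → ℂ)} (hV : (idealOf V).IsPrime)
    (h0 : ∀ x ∈ V, ∀ j, x j ≠ 0) {r b B : ℕ} (U : Finset ℕ)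
    (hU : ∀ u < r, u ≤ dimQ (idealOf V) →
      (Module.finrank ℤ (lat (idealOf V)) + dimQ (idealOf V) < n ∨ u < dimQ (idealOf V)) → u ∈ U)
    (hB : B < 2 ^ b) {lam : Fin r → Fin n → ℤ}
    (hlam : lam ∉ U.biUnion fun u => bad (idealOf V) u 0 (0 + b) r)
    (hsize : ∀ t j, |lam t j| ≤ (B : ℤ)) {A : Set (Fin n → ℂ)} (hAV : A ⊆ V)
    (hA : (idealOf A).IsPrime) (hrel : ∀ x ∈ A, ∀ t, ∏ j, x j ^ lam t j = 1) :
    dimQ (idealOf A) + r ≤ dimQ (idealOf V) ∨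
        ∃ ζ : Fin n → ℂ, A = {ζ} ∧ ∀ j, ∃ k : ℕ, 0 < k ∧ ζ j ^ k = 1 := by
  by_contra hcon
  push Not at hcon
  obtain ⟨hdim, hnt⟩ := hcon
  have hb : ∀ t j, |lam t j| < (2 : ℤ) ^ b := by
    intro t j
    refine (hsize t j).trans_lt ?_
    exact_mod_cast hB
  obtain ⟨u, hur, hum, hbad, hcase⟩ := exists_wit hV h0 hAV hA hb hrel hdim (by
    rintro ⟨ζ, h1, h2⟩
    obtain ⟨j, hj⟩ := hnt ζ h1
    obtain ⟨k, hk, hk'⟩ := h2 j
    exact hj k hk hk')
  apply hlam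
  exact Finset.mem_biUnion.2 ⟨u, hU u hur hum hcase, hbad⟩

/-- All tuples of size at most `B` outside a set of at most `M` tuples are typical for `V`. -/
def AllBut (V : Set (Fin n → ℂ)) (r B : ℕ) (M : ℝ≥0∞) : Prop :=
  ∃ E : Finset (Fin r → Fin n → ℤ), (E.card : ℝ≥0∞) ≤ M ∧
    ∀ lam : Fin r → Fin n → ℤ, lam ∉ E → (∀ t j, |lam t j| ≤ (B : ℤ)) →
      ∀ A ⊆ V, (idealOf A).IsPrime → (∀ x ∈ A, ∀ t, ∏ j, x j ^ lam t j = 1) →
      dimQ (idealOf A) + r ≤ dimQ (idealOf V) ∨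
        ∃ ζ : Fin n → ℂ, A = {ζ} ∧ ∀ j, ∃ k : ℕ, 0 < k ∧ ζ j ^ k = 1

theorem mainA (n r δ : ℕ) (hδ : δ ≤ r) : ∃ C : ℕ, ∀ V : Set (Fin n → ℂ), (idealOf V).IsPrime →
    (∀ x ∈ V, ∀ j, x j ≠ 0) →
    (∀ u < r, u ≤ dimQ (idealOf V) →
      (Module.finrank ℤ (lat (idealOf V)) + dimQ (idealOf V) < n ∨ u < dimQ (idealOf V)) →
      (n + 1) * u + Module.finrank ℤ (lat (idealOf V)) * (r - u) + δ ≤ n * r) →
    ∀ B : ℕ, 2 ≤ B → AllBut V r B (((C * B ^ (n * r - δ) * Nat.log 2 B ^ r : ℕ) : ℝ≥0∞) *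
      Deg (dimQ (idealOf V)) (idealOf V)) := by
  classical
  choose C hC using fun u => recursion n r δ hδ u
  refine ⟨(∑ u ∈ Finset.range r, C u) * 3 ^ r * 2 ^ (n * r - δ), fun V hV h0 hE B hB => ?_⟩
  set P := idealOf V with hPdef
  have hX := X_notMem hV h0
  let U : Finset ℕ := (Finset.range r).filter fun u =>
    (n + 1) * u + Module.finrank ℤ (lat P) * (r - u) + δ ≤ n * r
  set l := Nat.log 2 B with hl
  have hl1 : 1 ≤ l := Nat.log_pos (by norm_num) hB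
  have hB1 : B < 2 ^ (l + 1) := Nat.lt_pow_succ_log_self (by norm_num) B
  have hB2 : 2 ^ l ≤ B := Nat.pow_log_le_self 2 (by omega)
  refine ⟨U.biUnion fun u => bad P u 0 (0 + (l + 1)) r, ?_, ?_⟩
  · have hu : ∀ u ∈ U, ((bad P u 0 (0 + (l + 1)) r).card : ℝ≥0∞) ≤
        ((C u * ((3 * l) ^ r * (2 * B) ^ (n * r - δ)) : ℕ) : ℝ≥0∞) * Deg (dimQ P) P := by
      intro u hu
      obtain ⟨hur, hE'⟩ := Finset.mem_filter.1 hu
      rw [Finset.mem_range] at hur
      have h1 := hC u P hV hX 0 (l + 1) hur hE'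
      refine h1.trans (mul_le_mul' (Nat.cast_le.2 ?_) le_rfl)
      rw [pow_zero, cnt_one, one_pow, Nat.zero_mul, Nat.zero_mul, pow_zero, mul_one, mul_one]
      have h4 : (0 + (l + 1) + 1) ^ u ≤ (3 * l) ^ r :=
        (Nat.pow_le_pow_left (by omega) u).trans (Nat.pow_le_pow_right (by omega) hur.le)
      have h5 : 2 ^ ((l + 1) * (n * r - δ)) ≤ (2 * B) ^ (n * r - δ) := by
        rw [pow_mul]
        refine Nat.pow_le_pow_left ?_ _
        rw [pow_succ]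
        omega
      calc C u * (0 + (l + 1) + 1) ^ u * 2 ^ ((l + 1) * (n * r - δ))
          ≤ C u * (3 * l) ^ r * (2 * B) ^ (n * r - δ) := by gcongr
        _ = C u * ((3 * l) ^ r * (2 * B) ^ (n * r - δ)) := by ring
    calc ((U.biUnion fun u => bad P u 0 (0 + (l + 1)) r).card : ℝ≥0∞)
        ≤ ((∑ u ∈ U, (bad P u 0 (0 + (l + 1)) r).card : ℕ) : ℝ≥0∞) :=
          Nat.cast_le.2 Finset.card_biUnion_le
      _ = ∑ u ∈ U, ((bad P u 0 (0 + (l + 1)) r).card : ℝ≥0∞) := by push_cast; rfl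
      _ ≤ ∑ u ∈ U, ((C u * ((3 * l) ^ r * (2 * B) ^ (n * r - δ)) : ℕ) : ℝ≥0∞) *
          Deg (dimQ P) P := Finset.sum_le_sum hu
      _ ≤ ∑ u ∈ Finset.range r, ((C u * ((3 * l) ^ r * (2 * B) ^ (n * r - δ)) : ℕ) : ℝ≥0∞) *
          Deg (dimQ P) P :=
          Finset.sum_le_sum_of_subset_of_nonneg (Finset.filter_subset _ _)
            (fun _ _ _ => bot_le)
      _ = (((∑ u ∈ Finset.range r, C u) * 3 ^ r * 2 ^ (n * r - δ) * B ^ (n * r - δ) * l ^ r : ℕ) :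
          ℝ≥0∞) * Deg (dimQ P) P := by
          rw [← Finset.sum_mul, ← Nat.cast_sum, ← Finset.sum_mul]
          congr 2
          rw [mul_pow, mul_pow]
          ring
  · intro lam hlam hsize A hAV hA hrel
    exact typical_of_notMem hV h0 U (fun u hur hum hcase =>
      Finset.mem_filter.2 ⟨Finset.mem_range.2 hur, hE u hur hum hcase⟩) hB1 hlam hsize hAV hA hrel

theorem mainB (n r δ : ℕ) (hδ : δ ≤ r) : ∃ C : ℕ, ∀ V : Set (Fin n → ℂ), (idealOf V).IsPrime →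
    (∀ x ∈ V, ∀ j, x j ≠ 0) → dimQ (idealOf V) + 2 ≤ r →
    (∀ u ≤ dimQ (idealOf V),
      (n + 1) * u + Module.finrank ℤ (lat (idealOf V)) * (r - u) + δ + min u 1 ≤ n * r) →
    ∀ B : ℕ, 2 ≤ B → AllBut V r B (((C * B ^ (n * r - δ) : ℕ) : ℝ≥0∞) *
      Deg (dimQ (idealOf V)) (idealOf V)) := by
  classical
  choose C hC using fun u => recursionB n r δ hδ u
  refine ⟨(∑ u ∈ Finset.range r, C u) * 2 ^ (n * r - δ), fun V hV h0 hr2 hE B hB => ?_⟩
  set P := idealOf V with hPdef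
  have hX := X_notMem hV h0
  let U : Finset ℕ := Finset.range (dimQ P + 1)
  set l := Nat.log 2 B with hl
  have hB1 : B < 2 ^ (l + 1) := Nat.lt_pow_succ_log_self (by norm_num) B
  have hB2 : 2 ^ l ≤ B := Nat.pow_log_le_self 2 (by omega)
  refine ⟨U.biUnion fun u => bad P u 0 (0 + (l + 1)) r, ?_, ?_⟩
  · have hu : ∀ u ∈ U, ((bad P u 0 (0 + (l + 1)) r).card : ℝ≥0∞) ≤
        ((C u * ((2 * B) ^ (n * r - δ)) : ℕ) : ℝ≥0∞) * Deg (dimQ P) P := by
      intro u hu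
      have hum := Finset.mem_range.1 hu
      have h1 := hC u P hV hX 0 (l + 1) (by omega) (hE u (by omega))
      refine h1.trans (mul_le_mul' (Nat.cast_le.2 ?_) le_rfl)
      rw [pow_zero, cnt_one, one_pow, Nat.zero_mul, Nat.zero_mul, pow_zero, mul_one, mul_one]
      have h5 : 2 ^ ((l + 1) * (n * r - δ)) ≤ (2 * B) ^ (n * r - δ) := by
        rw [pow_mul]
        refine Nat.pow_le_pow_left ?_ _
        rw [pow_succ]
        omega
      exact Nat.mul_le_mul_left _ h5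
    have hUr : U ⊆ Finset.range r := Finset.range_subset_range.2 (by omega)
    calc ((U.biUnion fun u => bad P u 0 (0 + (l + 1)) r).card : ℝ≥0∞)
        ≤ ((∑ u ∈ U, (bad P u 0 (0 + (l + 1)) r).card : ℕ) : ℝ≥0∞) :=
          Nat.cast_le.2 Finset.card_biUnion_le
      _ = ∑ u ∈ U, ((bad P u 0 (0 + (l + 1)) r).card : ℝ≥0∞) := by push_cast; rfl
      _ ≤ ∑ u ∈ U, ((C u * ((2 * B) ^ (n * r - δ)) : ℕ) : ℝ≥0∞) *
          Deg (dimQ P) P := Finset.sum_le_sum hu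
      _ ≤ ∑ u ∈ Finset.range r, ((C u * ((2 * B) ^ (n * r - δ)) : ℕ) : ℝ≥0∞) *
          Deg (dimQ P) P :=
          Finset.sum_le_sum_of_subset_of_nonneg hUr (fun _ _ _ => bot_le)
      _ = (((∑ u ∈ Finset.range r, C u) * 2 ^ (n * r - δ) * B ^ (n * r - δ) : ℕ) :
          ℝ≥0∞) * Deg (dimQ P) P := by
          rw [← Finset.sum_mul, ← Nat.cast_sum, ← Finset.sum_mul]
          congr 2
          rw [mul_pow]
          ring
  · intro lam hlam hsize A hAV hA hrel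
    exact typical_of_notMem hV h0 U (fun u hur hum hcase =>
      Finset.mem_range.2 (Nat.lt_succ_of_le hum)) hB1 hlam hsize hAV hA hrel

end Pool.Agent.W282.DZ
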